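import Pool.Agent.Lib.MP_651af7_nt.Dg.Defs

/-! Homogeneous ideals and the noetherian induction. -/

namespace Pool.Agent.Lib.MP_651af7_nt.Dg

open MvPolynomial

variable {k : Type} [Field k] {N R r : ℕ}

/- `aeval U` sends forms of degree `e` to forms of degree `D * e` (`IsHomogeneous.aeval`);
`sum_homogeneousComponent`. -/
theorem aeval_comp_mem {σ : Type} {U : σ → MvPolynomial (Fin R) k} {D : ℕ} (hD : 0 < D)
    (hU : ∀ s, (U s).IsHomogeneous D) {p : Ideal (MvPolynomial (Fin R) k)} (hp : Hom p)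
    {Ψ : MvPolynomial σ k} (h : aeval U Ψ ∈ p) (e : ℕ) :
    aeval U (homogeneousComponent e Ψ) ∈ p := by
  have h1 := hp _ h (D * e)
  rw [← sum_homogeneousComponent Ψ, map_sum, map_sum, Finset.sum_congr rfl fun i _ =>
    homogeneousComponent_of_mem ((homogeneousComponent_isHomogeneous i Ψ).aeval U hU)] at h1
  simp only [Nat.mul_right_inj hD.ne', Finset.sum_ite_eq] at h1
  split_ifs at h1 with h2
  · exact h1
  · rw [homogeneousComponent_eq_zero _ _ (by simpa using h2), map_zero]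
    exact p.zero_mem

/- As in `Sn.cutB_min`. -/
theorem min_hom {J p : Ideal (MvPolynomial (Fin R) k)} (hJ : Hom J) (hp : p ∈ J.minimalPrimes) :
    Hom p := by
  let _ := MvPolynomial.gradedAlgebra (σ := Fin R) (R := k)
  have hd : ∀ (f : MvPolynomial (Fin R) k) (e : ℕ),
      (DirectSum.decompose (homogeneousSubmodule (Fin R) k) f e : MvPolynomial (Fin R) k) =
        homogeneousComponent e f := fun f e => MvPolynomial.decomposition.decompose'_apply f e
  have hJ' : J.IsHomogeneous (homogeneousSubmodule (Fin R) k) := fun e f hf =>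
    (hd f e).symm ▸ hJ f hf e
  have h1 : J ≤ (p.homogeneousCore (homogeneousSubmodule (Fin R) k)).toIdeal :=
    hJ'.toIdeal_homogeneousCore_eq_self.ge.trans (Ideal.homogeneousCore_mono _ hp.1.2)
  have h2 := hp.2 ⟨hp.1.1.homogeneousCore, h1⟩ (Ideal.toIdeal_homogeneousCore_le _ _)
  intro f hf e
  exact hd f e ▸ Ideal.toIdeal_homogeneousCore_le _ _
    ((p.homogeneousCore (homogeneousSubmodule (Fin R) k)).isHomogeneous e (h2 hf))

/- Well-founded induction on the homogeneous ideals `b ≥ J`. A minimal prime `p` of `b` is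
homogeneous, `p ⊔ span {Λ} > b` is homogeneous (`Sn.cutB_hom`); products of the `Θ`, maxima of
the `C`; `z a` contains a minimal prime of `b`. -/
theorem noeth (I : Ideal (MvPolynomial (Fin N) k)) [I.IsPrime] (κ : Fin r → Fin N → Fin R)
    {α β : Type} (z : α → Ideal (MvPolynomial (Fin R) k)) (hz : ∀ a, (z a).IsPrime)
    (Q : β → ℝ → α → Prop) (hQ : ∀ S C C' a, C ≤ C' → Q S C a → Q S C' a)
    {J : Ideal (MvPolynomial (Fin R) k)} (hJ : Hom J)
    (step : ∀ p : Ideal (MvPolynomial (Fin R) k), p.IsPrime → Hom p → J ≤ p →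
      ∃ (Θ : MvPolynomial (Fin N) k) (e : ℕ) (Λ : MvPolynomial (Fin R) k) (e' : ℕ),
        Θ.IsHomogeneous e ∧ Θ ∉ I ∧ Λ.IsHomogeneous e' ∧ Λ ∉ p ∧ ∀ S, ∃ C, ∀ a, p ≤ z a →
          (∀ i, rename (κ i) Θ ∉ z a) → Λ ∉ z a → Q S C a) :
    ∃ (Θ : MvPolynomial (Fin N) k) (e : ℕ), Θ.IsHomogeneous e ∧ Θ ∉ I ∧
      ∀ S, ∃ C, ∀ a, J ≤ z a → (∀ i, rename (κ i) Θ ∉ z a) → Q S C a := by
  let Good : (α → Prop) → Prop := fun π => ∃ (Θ : MvPolynomial (Fin N) k) (e : ℕ),
    Θ.IsHomogeneous e ∧ Θ ∉ I ∧ ∀ S, ∃ C, ∀ a, π a → (∀ i, rename (κ i) Θ ∉ z a) → Q S C a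
  have hor : ∀ {π₁ π₂ π : α → Prop}, Good π₁ → Good π₂ → (∀ a, π a → π₁ a ∨ π₂ a) → Good π := by
    rintro π₁ π₂ π ⟨Θ₁, e₁, a1, a2, a3⟩ ⟨Θ₂, e₂, b1, b2, b3⟩ h
    refine ⟨Θ₁ * Θ₂, e₁ + e₂, a1.mul b1, fun h1 => (Ideal.IsPrime.mem_or_mem ‹_› h1).elim a2 b2,
      fun S => ?_⟩
    obtain ⟨C₁, h1⟩ := a3 S
    obtain ⟨C₂, h2⟩ := b3 S
    refine ⟨max C₁ C₂, fun a ha h3 => ?_⟩
    simp only [map_mul] at h3
    rcases h a ha with h4 | h4
    · exact hQ S _ _ a (le_max_left _ _)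
        (h1 a h4 fun i h5 => h3 i (Ideal.mul_mem_right _ _ h5))
    · exact hQ S _ _ a (le_max_right _ _)
        (h2 a h4 fun i h5 => h3 i (Ideal.mul_mem_left _ _ h5))
  have hfin : ∀ T : Set (Ideal (MvPolynomial (Fin R) k)), T.Finite →
      (∀ p ∈ T, Good fun a => p ≤ z a) → Good fun a => ∃ p ∈ T, p ≤ z a := by
    intro T hT
    induction T, hT using Set.Finite.induction_on with
    | empty =>
      exact fun _ => ⟨1, 0, isHomogeneous_one _ _, (Ideal.ne_top_iff_one I).1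
        (Ideal.IsPrime.ne_top ‹_›), fun _ => ⟨0, fun a ⟨_, h, _⟩ => h.elim⟩⟩
    | insert _ _ ih =>
      intro h
      refine hor (h _ (Set.mem_insert _ _)) (ih fun p hp => h p (Set.mem_insert_of_mem _ hp)) ?_
      rintro a ⟨p, rfl | hp, h1⟩
      · exact Or.inl h1
      · exact Or.inr ⟨p, hp, h1⟩
  have key : ∀ b : Ideal (MvPolynomial (Fin R) k), Hom b → J ≤ b → Good fun a => b ≤ z a := by
    intro b
    induction b using WellFoundedGT.induction with
    | ind b ih =>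
      intro hb hJb
      have h1 := hfin _ (b.finite_minimalPrimes_of_isNoetherianRing _) fun p hp => by
        have h2 := min_hom hb hp
        obtain ⟨Θ, e, Λ, e', a1, a2, a3, a4, a5⟩ := step p hp.1.1 h2 (hJb.trans hp.1.2)
        have h3 : b < p ⊔ Ideal.span {Λ} := lt_of_le_of_lt hp.1.2 (lt_of_le_of_ne le_sup_left
          fun h => a4 (h ▸ Ideal.mem_sup_right (Ideal.mem_span_singleton_self Λ)))
        refine hor (π₁ := fun a => p ≤ z a ∧ Λ ∉ z a)
          ⟨Θ, e, a1, a2, fun S => (a5 S).imp fun C h a ha h4 => h a ha.1 h4 ha.2⟩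
          (ih _ h3 (Sn.cutB_hom h2 a3) (hJb.trans h3.le)) fun a ha => ?_
        by_cases h4 : Λ ∈ z a
        · exact Or.inr (sup_le ha ((Ideal.span_singleton_le_iff_mem _).2 h4))
        · exact Or.inl ⟨ha, h4⟩
      refine hor h1 h1 fun a ha => Or.inl ?_
      have := hz a
      exact Ideal.exists_minimalPrimes_le ha
  exact key J hJ le_rfl

end Pool.Agent.Lib.MP_651af7_nt.Dg
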