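import Pool.Agent.Lib.MP_651af7_nt.Dg.Rad
import Pool.Agent.Lib.MP_651af7_nt.Dg.Noe

/-! Components of small dimension. -/

namespace Pool.Agent.Lib.MP_651af7_nt.Dg

open MvPolynomial

variable {k : Type} [Field k] {N M R n d r : ℕ} {I : Ideal (MvPolynomial (Fin N) k)}
  {G : Fin M → MvPolynomial (Fin N) k}

/- `Sn.dimA_trdeg`; the range of `ψ` is isomorphic to the quotient by the kernel; the integral
closure of the range in `E` has the same transcendence degree (`trdeg_add_eq`, `trdeg_eq_zero`). -/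
theorem dep {E : Type} [Field E] [Algebra k E] (c : Fin M → E) {m : ℕ} (hm : m ≤ n)
    (hdim : ringKrullDim (MvPolynomial (Fin M) k ⧸
      RingHom.ker (aeval c : MvPolynomial (Fin M) k →ₐ[k] E)) = m)
    (u : Fin (n + 1) → E) (hu : ∀ a, IsIntegral (Algebra.adjoin k (Set.range c)) (u a)) :
    ∃ Ψ : MvPolynomial (Fin (n + 1)) k, Ψ ≠ 0 ∧ aeval u Ψ = 0 := by
  by_contra! h
  have h1 : AlgebraicIndependent k u := (injective_iff_map_eq_zero _).2 fun Ψ e =>
    by_contra fun e' => h Ψ e' e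
  have := RingHom.ker_isPrime (aeval c : MvPolynomial (Fin M) k →ₐ[k] E)
  have h2 := Sn.dimA_trdeg k _ hdim
  rw [(Ideal.quotientKerEquivRange (aeval c : MvPolynomial (Fin M) k →ₐ[k] E)).trdeg_eq,
    ← Algebra.adjoin_range_eq_range_aeval] at h2
  generalize Algebra.adjoin k (Set.range c) = A at hu h2
  have h3 : AlgebraicIndependent k fun a => (⟨u a, hu a⟩ : integralClosure A E) :=
    AlgebraicIndependent.of_comp ((integralClosure A E).val.restrictScalars k) h1
  have h4 := h3.cardinalMk_le_trdeg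
  rw [← trdeg_add_eq k A (A := integralClosure A E), h2,
    trdeg_eq_zero (R := A) (A := integralClosure A E), add_zero, Cardinal.mk_fin] at h4
  have h5 : n + 1 ≤ m := by exact_mod_cast h4
  omega

/- `s` from `Sn.indep`; `E`, `y` as in `rad`; `U a = X (κ i₀ (s a)) ^ d * μ` with
`μ = ∏ i ≠ i₀, rename (κ i) (G b) ∉ p`, a form of degree `r * d`; `integ`, `dep`, a component
`Ψ' ≠ 0` of degree `e` of `Ψ` (`aeval_comp_mem`), `aeval U Ψ' = μ ^ e * rename (κ i₀) Θ` with
`Θ = aeval (fun a => X (s a) ^ d) Ψ'`, and `Θ ∉ I` by independence (`expand_injective`). -/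
theorem base [I.IsPrime] (hn : ringKrullDim (MvPolynomial (Fin N) k ⧸ I) = (n + 1 : ℕ))
    (hI : Hom I) (hd : 0 < d) (hG : ∀ t, (G t).IsHomogeneous d) (h : WP I n G)
    (hM : r * n + 1 ≤ M) (κ : Fin r → Fin N → Fin R) (p : Ideal (MvPolynomial (Fin R) k))
    [p.IsPrime] (hH : Hom p) (hp : ∀ i, ∀ P ∈ I, rename (κ i) P ∈ p) {m : ℕ} (hm : m ≤ n)
    (hdim : ringKrullDim (MvPolynomial (Fin M) k ⧸ p.comap (phi κ G)) = m) {b : Fin M}
    (hb : X b ∉ p.comap (phi κ G)) (i₀ : Fin r) :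
    ∃ (Θ : MvPolynomial (Fin N) k) (e : ℕ), Θ.IsHomogeneous e ∧ Θ ∉ I ∧ rename (κ i₀) Θ ∈ p := by
  obtain ⟨s, hs⟩ := Sn.indep I hn
  let E := FractionRing (MvPolynomial (Fin R) k ⧸ p)
  let π : MvPolynomial (Fin R) k →ₐ[k] E :=
    (IsScalarTower.toAlgHom k (MvPolynomial (Fin R) k ⧸ p) E).comp (Ideal.Quotient.mkₐ k p)
  have hπ : ∀ f, π f = 0 ↔ f ∈ p := fun f =>
    (FaithfulSMul.algebraMap_eq_zero_iff (R := MvPolynomial (Fin R) k ⧸ p) (A := E)).trans
      Ideal.Quotient.eq_zero_iff_mem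
  let y : Fin r → Fin N → E := fun i a => π (X (κ i a))
  have hy : ∀ i P, aeval (y i) P = π (rename (κ i) P) := fun i P =>
    DFunLike.congr_fun (algHom_ext (f := aeval (y i)) (g := π.comp (rename (κ i)))
      fun a => by simp [y]) P
  have hc : RingHom.ker (aeval fun t => ∏ i, aeval (y i) (G t) :
      MvPolynomial (Fin M) k →ₐ[k] E) = p.comap (phi κ G) := by
    have e : (aeval fun t => ∏ i, aeval (y i) (G t) : MvPolynomial (Fin M) k →ₐ[k] E) =
        π.comp (phi κ G) := algHom_ext fun t => by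
      simp only [aeval_X, AlgHom.comp_apply, phi_X, map_prod, hy]
    ext f
    rw [RingHom.mem_ker, e, AlgHom.comp_apply, hπ, Ideal.mem_comap]
  let P : Fin (n + 1) → Fin r → MvPolynomial (Fin N) k := fun a i =>
    if i = i₀ then X (s a) ^ d else G b
  have hP : ∀ a i, (P a i).IsHomogeneous d := fun a i => by
    simp only [P]
    split_ifs
    exacts [isHomogeneous_X_pow _ d, hG b]
  obtain ⟨Ψ, h0, hΨ⟩ := dep _ hm (hc.symm ▸ hdim) (fun a => ∏ i, aeval (y i) (P a i)) fun a =>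
    integ hI hd hG h hM y (fun i Q hQ => by rw [hy, hπ]; exact hp i Q hQ) (P a) (hP a)
  let μ := ∏ i ∈ Finset.univ.erase i₀, rename (κ i) (G b)
  have hμ : μ ∉ p := fun e => hb (by
    rw [Ideal.mem_comap, phi_X, ← Finset.mul_prod_erase _ _ (Finset.mem_univ i₀)]
    exact p.mul_mem_left _ e)
  have hU : (fun a => ∏ i, rename (κ i) (P a i)) = fun a => μ * rename (κ i₀) (X (s a) ^ d) := by
    funext a
    rw [← Finset.mul_prod_erase _ _ (Finset.mem_univ i₀), mul_comm]
    simp only [P, if_true]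
    exact congrArg (· * _) (Finset.prod_congr rfl fun i hi => by
      rw [if_neg (Finset.ne_of_mem_erase hi)])
  have h1 : aeval (fun a => ∏ i, rename (κ i) (P a i)) Ψ ∈ p := by
    rw [← hπ, ← hΨ, ← AlgHom.comp_apply, comp_aeval]
    simp only [map_prod, hy]
  obtain ⟨e, he⟩ : ∃ e, homogeneousComponent e Ψ ≠ 0 := by
    by_contra! k0
    exact h0 (by rw [← sum_homogeneousComponent Ψ]; exact Finset.sum_eq_zero fun e _ => k0 e)
  have h2 := aeval_comp_mem (D := ∑ _i : Fin r, d)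
    (Finset.sum_pos (fun _ _ => hd) ⟨i₀, Finset.mem_univ _⟩)
    (fun a => IsHomogeneous.prod _ _ _ fun i _ => (hP a i).rename_isHomogeneous) hH h1 e
  have h3 := homogeneousComponent_isHomogeneous e Ψ
  rw [hU, Av.aeval_mul_of_hom h3] at h2
  refine ⟨aeval (fun a => X (s a) ^ d) (homogeneousComponent e Ψ), d * e,
    h3.aeval _ fun a => isHomogeneous_X_pow _ d, fun k0 => (expand_ne_zero hd).2 he (hs ?_), ?_⟩
  · rw [map_zero, aeval_expand, ← Ideal.Quotient.eq_zero_iff_mem.2 k0, ← Ideal.Quotient.mkₐ_eq_mk k,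
      ← AlgHom.comp_apply (Ideal.Quotient.mkₐ k I), comp_aeval]
    simp only [map_pow]
    rfl
  · rw [← AlgHom.comp_apply, comp_aeval]
    exact (Ideal.IsPrime.mem_or_mem ‹_› h2).resolve_left fun k0 =>
      hμ (Ideal.IsPrime.mem_of_pow_mem ‹_› e k0)

end Pool.Agent.Lib.MP_651af7_nt.Dg
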