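import Pool.Agent.Lib.MP_651af7_nt.Sn.Main
import Pool.Agent.Lib.MP_651af7_nt.Dg.Base

/-! The inequality for the vector of the products. -/

namespace Pool.Agent.Lib.MP_651af7_nt.Dg

open MvPolynomial Height NumberField

variable {k : Type} [Field k] [NumberField k] {N R n d r q : ℕ}

omit [NumberField k] in
theorem alg_dim {M : ℕ} (p : Ideal (MvPolynomial (Fin M) k)) [p.IsPrime] :
    ∃ m : ℕ, ringKrullDim (MvPolynomial (Fin M) k ⧸ p) = m := by
  have h1 : ringKrullDim (MvPolynomial (Fin M) k ⧸ p) ≤ (M : ℕ) := by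
    refine (ringKrullDim_quotient_le p).trans (le_of_eq ?_)
    rw [MvPolynomial.ringKrullDim_of_isNoetherianRing, ringKrullDim_eq_zero_of_field]
    simp
  have h2 : (0 : WithBot ℕ∞) ≤ ringKrullDim (MvPolynomial (Fin M) k ⧸ p) :=
    ringKrullDim_nonneg_of_nontrivial
  generalize ringKrullDim (MvPolynomial (Fin M) k ⧸ p) = a at h1 h2
  induction a using WithBot.recBotCoe with
  | bot => exact absurd h2 (by simp)
  | coe a =>
    induction a using ENat.recTopCoe with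
    | top => exact absurd (WithBot.coe_le_coe.mp h1) (by simp)
    | coe m => exact ⟨m, rfl⟩

omit [NumberField k] in
theorem alg_ev {M : ℕ} {κ : Fin r → Fin N → Fin R} {G : Fin M → MvPolynomial (Fin N) k}
    {z : Ideal (MvPolynomial (Fin R) k)} (hz : z.IsPrime) {c : Fin M → k}
    (hc : ∀ t, ∏ i, rename (κ i) (G t) - C (c t) ∈ z) (P : MvPolynomial (Fin M) k) :
    phi κ G P ∈ z ↔ eval c P = 0 := by
  have key : phi κ G P - C (eval c P) ∈ z := by
    induction P using MvPolynomial.induction_on with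
    | C a => simp
    | add f g hf hg =>
      rw [map_add, map_add, map_add, add_sub_add_comm]
      exact z.add_mem hf hg
    | mul_X f t hf =>
      have := z.add_mem (z.mul_mem_right (∏ i, rename (κ i) (G t)) hf)
        (z.mul_mem_left (C (eval c f)) (hc t))
      rw [map_mul, phi_X, map_mul, eval_X, map_mul]
      rwa [sub_mul, mul_sub, sub_add_sub_cancel] at this
  refine ⟨fun h => by_contra fun h0 => hz.ne_top (z.eq_top_of_isUnit_mem ?_
    ((IsUnit.mk0 _ h0).map C)), fun h => by simpa [h] using key⟩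
  simpa using z.sub_mem h key

omit [NumberField k] in
theorem alg_hc {L : ℕ} {p : Ideal (MvPolynomial (Fin (q + L)) k)}
    (h : ∀ J : Finset (Fin (q + L)), L ≤ J.card → ∀ t,
      X t ∈ (p ⊔ Ideal.span (X '' J)).radical) (Z : Finset (Fin q)) :
    ∃ G : Fin (L - Z.card) → MvPolynomial (Fin (q + L)) k, (∀ i, (G i).IsHomogeneous 1) ∧
      ∀ a, X a ∈ (p ⊔ Ideal.span ({P | ∃ j ∈ Z, ∃ _ : Fin 1, X (Fin.castAdd L j) = P} ∪
        Set.range G)).radical := by
  refine ⟨fun i => X (Fin.natAdd q (Fin.castLE (Nat.sub_le _ _) i)),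
    fun i => isHomogeneous_X _ _, fun a => Ideal.radical_mono (sup_le_sup_left
      (Ideal.span_mono ?_) _) (h ((Z.disjSum (Finset.univ.map
        (Fin.castLEEmb (Nat.sub_le L Z.card)))).map finSumFinEquiv.toEmbedding) ?_ a)⟩
  · rintro _ ⟨t, ht, rfl⟩
    obtain ⟨u, hu, rfl⟩ := Finset.mem_map.1 ht
    rcases Finset.mem_disjSum.1 hu with ⟨j, hj, rfl⟩ | ⟨j, hj, rfl⟩
    · exact Or.inl ⟨j, hj, 0, rfl⟩
    · obtain ⟨i, -, rfl⟩ := Finset.mem_map.1 hj
      exact Or.inr ⟨i, rfl⟩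
  · simp only [Finset.card_map, Finset.card_disjSum, Finset.card_univ, Fintype.card_fin]
    omega

theorem alg_core {M m L : ℕ} (p : Ideal (MvPolynomial (Fin M) k)) [p.IsPrime] (hp : Hom p)
    (hm : ringKrullDim (MvPolynomial (Fin M) k ⧸ p) = (m + 1 : ℕ)) (hL : 0 < L)
    (F : Fin q → Fin 1 → MvPolynomial (Fin M) k) (hF : ∀ j i, (F j i).IsHomogeneous 1)
    (h0 : ∀ j, ∃ i, F j i ∉ p)
    (hc : ∀ Z : Finset (Fin q), ∃ G : Fin (L - Z.card) → MvPolynomial (Fin M) k,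
      (∀ i, (G i).IsHomogeneous 1) ∧
      ∀ a, X a ∈ (p ⊔ Ideal.span ({P | ∃ j ∈ Z, ∃ i, F j i = P} ∪ Set.range G)).radical)
    {ε : ℝ} (hε : 0 < ε) : ∃ B : ℝ, (B = L ∨ B = 2 * L - (m + 1)) ∧
      ∃ (Θ : MvPolynomial (Fin M) k) (e : ℕ), Θ.IsHomogeneous e ∧ Θ ∉ p ∧
        ∀ S : Finset (FinitePlace k), ∃ C : ℝ, ∀ x : Fin M → k, x ≠ 0 →
          (∀ P ∈ p, eval x P = 0) → eval x Θ ≠ 0 → (∀ j, ∃ i, eval x (F j i) ≠ 0) ∧
          ∑ j, ∑ v : Rt.Pl S, Rt.mu v * Sn.lam (Rt.av v) 1 (F j) x ≤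
            (B + ε) * logHeight x + C := by
  have m0 : (0 : ℝ) < m + 1 := by positivity
  rcases le_total L (m + 1) with h | h
  · have := Sn.core p hp one_pos hm F hF h0 (w := fun _ => 1) (fun _ => one_pos)
      (div_pos (Nat.cast_pos.2 hL) m0) le_rfl (r := fun Z => L - Z.card) h (fun Z hZ => by
        have h1 : Z.card ≤ L := by omega
        have h2 : (0 : ℝ) ≤ m + 1 - L := sub_nonneg.2 (by exact_mod_cast h)
        have h3 : (0 : ℝ) ≤ L - Z.card := sub_nonneg.2 (by exact_mod_cast h1)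
        rw [Finset.sum_const, nsmul_eq_mul, Nat.cast_sub h1, add_zero, div_mul_eq_mul_div,
          le_div_iff₀ m0]
        nlinarith [mul_nonneg h2 h3]) hc hε
    exact ⟨L, Or.inl rfl, by simpa [div_mul_cancel₀ _ m0.ne'] using this⟩
  · have := Sn.core p hp one_pos hm F hF h0 (w := fun _ => 1) (fun _ => one_pos) one_pos
      (E := L - (m + 1)) (sub_nonneg.2 (by exact_mod_cast h))
      (r := fun Z => min (L - Z.card) (m + 1)) (min_le_right _ _) (fun Z hZ => by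
        have h1 : Z.card + min (L - Z.card) (m + 1) ≤ L := by omega
        have h2 : (Z.card + (min (L - Z.card) (m + 1) : ℕ) : ℝ) ≤ L := by exact_mod_cast h1
        rw [Finset.sum_const, nsmul_eq_mul]
        linarith) (fun Z => by
        rcases le_total (L - Z.card) (m + 1) with h1 | h1
        · rw [min_eq_left h1]
          exact hc Z
        · obtain ⟨G, h2, h3⟩ := Sn.cut one_pos _ p hp hm.le
          rw [min_eq_right h1]
          exact ⟨G, h2, fun a => Ideal.radical_mono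
            (sup_le_sup_left (Ideal.span_mono Set.subset_union_right) _) (h3 a)⟩) hε
    rw [show (1 * (m + 1) + 2 * (L - (m + 1)) : ℝ) = 2 * L - (m + 1) by ring] at this
    exact ⟨_, Or.inr rfl, by simpa using this⟩

theorem alg (I : Ideal (MvPolynomial (Fin N) k)) [I.IsPrime]
    (hn : ringKrullDim (MvPolynomial (Fin N) k ⧸ I) = (n + 1 : ℕ)) (hI : Hom I) (hd : 0 < d)
    (hr : 0 < r) {G : Fin (q + (r * n + 1)) → MvPolynomial (Fin N) k}
    (hG : ∀ t, (G t).IsHomogeneous d) (h : WP I n G) (h0 : ∀ t, G t ∉ I)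
    (κ : Fin r → Fin N → Fin R) {ε : ℝ} (hε : 0 < ε) :
    ∃ (Θ : MvPolynomial (Fin N) k) (e : ℕ), Θ.IsHomogeneous e ∧ Θ ∉ I ∧
      ∀ S : Finset (FinitePlace k), ∃ C : ℝ, ∀ (z : Ideal (MvPolynomial (Fin R) k))
        (c : Fin (q + (r * n + 1)) → k), z.IsPrime → (∀ i, ∀ P ∈ I, rename (κ i) P ∈ z) →
        (∀ t, ∏ i, rename (κ i) (G t) - MvPolynomial.C (c t) ∈ z) →
        (∀ i, rename (κ i) Θ ∉ z) → (∀ j : Fin q, c (Fin.castAdd _ j) ≠ 0) ∧
        ∑ j : Fin q, (∑ w : InfinitePlace k,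
            w.mult * Real.log ((⨆ t, w.1 (c t)) / w.1 (c (Fin.castAdd _ j))) +
          ∑ v ∈ S, Real.log ((⨆ t, v.1 (c t)) / v.1 (c (Fin.castAdd _ j)))) ≤
          ((2 * r - 1) * n + 1 + ε) * logHeight c + C := by
  have hJ := Sn.hom_sup (I := (⊥ : Ideal (MvPolynomial (Fin R) k)))
    (Y := {Q | ∃ i, ∃ P ∈ I, (∃ e, P.IsHomogeneous e) ∧ rename (κ i) P = Q})
    (fun P hP e => by simp [Ideal.mem_bot.1 hP])
    (by rintro _ ⟨i, P, -, ⟨e, he⟩, rfl⟩; exact ⟨e, he.rename_isHomogeneous⟩)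
  obtain ⟨Θ, e, a1, a2, a3⟩ := noeth I κ
    (α := {a : Ideal (MvPolynomial (Fin R) k) × (Fin (q + (r * n + 1)) → k) //
      a.1.IsPrime ∧ ∀ t, ∏ i, rename (κ i) (G t) - C (a.2 t) ∈ a.1})
    (fun a => a.1.1) (fun a => a.2.1)
    (fun (S : Finset (FinitePlace k)) C a => (∀ j : Fin q, a.1.2 (Fin.castAdd _ j) ≠ 0) ∧
      ∑ j : Fin q, (∑ w : InfinitePlace k,
          w.mult * Real.log ((⨆ t, w.1 (a.1.2 t)) / w.1 (a.1.2 (Fin.castAdd _ j))) +
        ∑ v ∈ S, Real.log ((⨆ t, v.1 (a.1.2 t)) / v.1 (a.1.2 (Fin.castAdd _ j)))) ≤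
        ((2 * r - 1) * n + 1 + ε) * logHeight a.1.2 + C)
    (fun S C C' a h1 h2 => ⟨h2.1, h2.2.trans (by linarith)⟩) hJ fun p _ hH hp => by
      have hp' : ∀ i, ∀ P ∈ I, rename (κ i) P ∈ p := fun i P hP => by
        rw [← sum_homogeneousComponent P, map_sum]
        exact p.sum_mem fun e _ => hp (Ideal.mem_sup_right (Ideal.subset_span
          ⟨i, _, hI P hP e, ⟨e, homogeneousComponent_isHomogeneous e P⟩, rfl⟩))
      have h1 : (1 : MvPolynomial (Fin R) k) ∉ p := (Ideal.ne_top_iff_one p).1 Ideal.IsPrime.ne_top'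
      by_cases hX : ∃ t, X t ∈ p.comap (phi κ G)
      · obtain ⟨t, ht⟩ := hX
        refine ⟨G t, d, 1, 0, hG t, h0 t, isHomogeneous_one _ _, h1, fun S => ⟨0, ?_⟩⟩
        intro a h2 h3 _
        have := a.2.1
        have h4 := h2 (Ideal.mem_comap.1 ht)
        rw [phi_X] at h4
        obtain ⟨i, -, hi⟩ := Ideal.IsPrime.prod_mem_iff.1 h4
        exact absurd hi (h3 i)
      push Not at hX
      obtain ⟨m, hm⟩ := alg_dim (p.comap (phi κ G))
      rcases le_or_gt m n with hmn | hmn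
      · obtain ⟨Θ, e, a1, a2, a3⟩ := base hn hI hd hG h (Nat.le_add_left _ _) κ p hH hp' hmn hm
          (hX (Fin.last _)) ⟨0, hr⟩
        exact ⟨Θ, e, 1, 0, a1, a2, isHomogeneous_one _ _, h1, fun S =>
          ⟨0, fun a h2 h3 _ => absurd (h2 a3) (h3 _)⟩⟩
      obtain ⟨m, rfl⟩ : ∃ m', m = m' + 1 := ⟨m - 1, by omega⟩
      have hU : ∀ t, (∏ i, rename (κ i) (G t)).IsHomogeneous (r * d) := fun t => by
        simpa using IsHomogeneous.prod Finset.univ (fun i => rename (κ i) (G t)) (fun _ => d)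
          fun i _ => (hG t).rename_isHomogeneous
      obtain ⟨B, hB, Λ, e, a1, a2, a3⟩ := alg_core (p.comap (phi κ G))
        (fun P hP e => aeval_comp_mem (Nat.mul_pos hr hd) hU hH hP e) hm (r * n).succ_pos
        (fun j (_ : Fin 1) => X (Fin.castAdd _ j)) (fun _ _ => isHomogeneous_X _ _)
        (fun j => ⟨0, hX _⟩) (alg_hc fun J hJ t => rad hI hd hG h κ p hp' hJ t) hε
      refine ⟨G (Fin.last _), d, phi κ G Λ, r * d * e, hG _, h0 _, a1.aeval _ hU, a2, fun S => ?_⟩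
      obtain ⟨C, hC⟩ := a3 S
      refine ⟨C, fun a h2 h3 h4 => ?_⟩
      have := a.2.1
      have h5 := alg_ev a.2.1 a.2.2
      have h6 : a.1.2 ≠ 0 := fun h7 => by
        have h8 := (h5 (X (Fin.last _))).2 (by rw [eval_X, h7]; rfl)
        rw [phi_X] at h8
        obtain ⟨i, -, hi⟩ := Ideal.IsPrime.prod_mem_iff.1 h8
        exact h3 i hi
      obtain ⟨b1, b2⟩ := hC a.1.2 h6 (fun P hP => (h5 P).1 (h2 hP)) fun h7 => h4 ((h5 Λ).2 h7)
      refine ⟨fun j => by simpa using b1 j, le_of_eq_of_le ?_ (b2.trans ?_)⟩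
      · refine Finset.sum_congr rfl fun j _ => ?_
        rw [MP_8865d3_nt.Mk.sum_mu_inf, ← Finset.sum_coe_sort S]
        simp only [Sn.lam, pow_one, eval_X, ciSup_const]
        rfl
      · have h7 : (n : ℝ) ≤ m := by exact_mod_cast Nat.le_of_lt_succ hmn
        have h8 : (0 : ℝ) ≤ (r - 1) * n :=
          mul_nonneg (sub_nonneg.2 (by exact_mod_cast hr)) (Nat.cast_nonneg _)
        have h9 : B ≤ (2 * r - 1) * n + 1 := by
          rcases hB with rfl | rfl <;> push_cast <;> linarith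
        have := logHeight_nonneg a.1.2
        gcongr
  refine ⟨Θ, e, a1, a2, fun S => (a3 S).imp fun C hC z c h1 h2 h3 h4 =>
    hC ⟨(z, c), h1, h3⟩ (sup_le bot_le (Ideal.span_le.2 ?_)) h4⟩
  rintro _ ⟨i, P, hP, -, rfl⟩
  exact h2 i P hP

end Pool.Agent.Lib.MP_651af7_nt.Dg
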