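import Pool.Agent.Lib.MP_651af7_nt.Sn.Dim

/-! Forms in general position; products of their values at several points. -/

namespace Pool.Agent.Lib.MP_651af7_nt.Dg

open MvPolynomial

variable {k : Type} [Field k] {N M R r : ℕ} {ι : Type}

/-- The ideal is homogeneous. -/
def Hom (I : Ideal (MvPolynomial (Fin N) k)) : Prop :=
  ∀ P ∈ I, ∀ e, homogeneousComponent e P ∈ I

/-- General position. -/
def GP (I : Ideal (MvPolynomial (Fin N) k)) (n : ℕ) (G : ι → MvPolynomial (Fin N) k) : Prop :=
  ∀ J : Finset ι, J.card ≤ n + 1 →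
    ringKrullDim (MvPolynomial (Fin N) k ⧸ (I ⊔ Ideal.span (G '' J))) ≤ (n + 1 - J.card : ℕ)

/-- Any `n + 1` of the forms have no common zero. -/
def WP (I : Ideal (MvPolynomial (Fin N) k)) (n : ℕ) (G : ι → MvPolynomial (Fin N) k) : Prop :=
  ∀ J : Finset ι, n + 1 ≤ J.card → ∀ a, X a ∈ (I ⊔ Ideal.span (G '' J)).radical

/-- The variable `t` goes to the product of the values of `G t` at `r` blocks of variables. -/
noncomputable def phi (κ : Fin r → Fin N → Fin R) (G : Fin M → MvPolynomial (Fin N) k) :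
    MvPolynomial (Fin M) k →ₐ[k] MvPolynomial (Fin R) k :=
  aeval fun t => ∏ i, rename (κ i) (G t)

theorem phi_X (κ : Fin r → Fin N → Fin R) (G : Fin M → MvPolynomial (Fin N) k) (t : Fin M) :
    phi κ G (X t) = ∏ i, rename (κ i) (G t) := aeval_X _ t

end Pool.Agent.Lib.MP_651af7_nt.Dg
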