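import Pool.Agent.Lib.MP_651af7_nt.FinExt

/-! Heights of norms. -/

namespace Pool.Agent.Lib.MP_651af7_nt.Dg

open MvPolynomial Height NumberField Module

variable {k : Type} [Field k] [NumberField k] {N M d r : ℕ}

/- `L = normalClosure k K (AlgebraicClosure k)`, `normalClosure.algHomEquiv`,
`Algebra.norm_eq_prod_embeddings`, `AlgHom.card`. -/
theorem conj (K : Type) [Field K] [NumberField K] [Algebra k K] (hK : finrank k K = r) :
    ∃ (L : Type) (_ : Field L) (_ : NumberField L) (_ : Algebra k L) (σ : Fin r → K →ₐ[k] L),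
      ∀ z : K, algebraMap k L (Algebra.norm k z) = ∏ i, σ i z := by
  have : FiniteDimensional k K := Module.Finite.of_restrictScalars_finite ℚ k K
  let E := AlgebraicClosure k
  let L := IntermediateField.normalClosure k K E
  let e : Fin r ≃ (K →ₐ[k] E) :=
    (Fintype.equivFinOfCardEq ((AlgHom.card k K E).trans hK)).symm
  refine ⟨L, inferInstance, NumberField.of_module_finite k L, inferInstance,
    fun i => (normalClosure.algHomEquiv k K E).symm (e i), fun z => (algebraMap L E).injective ?_⟩
  rw [← IsScalarTower.algebraMap_apply, Algebra.norm_eq_prod_embeddings, map_prod,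
    ← e.prod_comp]
  rfl

/- `conj`, `Final.logHeight_algebraMap` for `k ⊆ L` and for each `σ i`, `logHeight_mul_le`. -/
theorem ht_norm {K : Type} [Field K] [NumberField K] [Algebra k K] (z : Fin M → K) :
    logHeight (fun t => Algebra.norm k (z t)) ≤ logHeight z := by
  obtain ⟨L, _, _, _, σ, h⟩ := conj (k := k) K rfl
  have : FiniteDimensional k L := Module.Finite.of_restrictScalars_finite ℚ k L
  have : FiniteDimensional k K := Module.Finite.of_restrictScalars_finite ℚ k K
  have h1 : ∀ i, finrank k K * logHeight (fun t => σ i (z t)) = finrank k L * logHeight z :=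
    fun i => by
      let _ := (σ i).toRingHom.toAlgebra
      have : IsScalarTower k K L := IsScalarTower.of_algebraMap_eq fun x => ((σ i).commutes x).symm
      rw [← finrank_mul_finrank k K L, Nat.cast_mul, mul_assoc,
        ← MP_651af7_nt.Final.logHeight_algebraMap (L := L) z]
      rfl
  have h2 : ∀ s : Finset (Fin (finrank k K)),
      logHeight (fun t => ∏ i ∈ s, σ i (z t)) ≤ ∑ i ∈ s, logHeight fun t => σ i (z t) := fun s => by
    induction s using Finset.induction_on with
    | empty => simp
    | insert a s ha ih =>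
      simp only [Finset.prod_insert ha, Finset.sum_insert ha]
      exact (logHeight_mul_le _ _).trans (add_le_add le_rfl ih)
  have h3 := MP_651af7_nt.Final.logHeight_algebraMap (L := L) fun t => Algebra.norm k (z t)
  have h4 := mul_le_mul_of_nonneg_left (h2 Finset.univ) (Nat.cast_nonneg (α := ℝ) (finrank k K))
  simp only [h] at h3
  simp only [Finset.mul_sum, h1, h3, Finset.sum_const, Finset.card_univ, Fintype.card_fin,
    nsmul_eq_mul] at h4
  exact le_of_mul_le_mul_left (le_of_mul_le_mul_left h4 (Nat.cast_pos.2 finrank_pos))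
    (Nat.cast_pos.2 finrank_pos)

theorem htb_ex {s : Fin N →₀ ℕ} (hs : ∑ i, s i = d) : ∃ I : Fin d → Fin N,
    ∀ (K : Type) [CommMonoid K] (x : Fin N → K), ∏ i, x i ^ s i = ∏ a, x (I a) := by
  have e : (Σ i, Fin (s i)) ≃ Fin d := Fintype.equivFinOfCardEq (by simpa using hs)
  refine ⟨fun a => (e.symm a).1, fun K _ x => ?_⟩
  rw [e.symm.prod_comp fun p => x p.1, Fintype.prod_sigma]
  simp

theorem htb_pow {K : Type} [Field K] [NumberField K] (x : Fin N → K) :
    logHeight (fun I : Fin d → Fin N => ∏ a, x (I a)) ≤ d * logHeight x := by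
  by_cases h : ∀ _ : Fin d, x ≠ 0
  · rw [logHeight_fun_prod_eq (x := fun _ : Fin d => x) h]
    simp
  · push Not at h
    obtain ⟨a, rfl⟩ := h
    have e : (fun I : Fin d → Fin N => ∏ b, (0 : Fin N → K) (I b)) = 0 :=
      funext fun I => Finset.prod_eq_zero (Finset.mem_univ a) rfl
    rw [e]
    simp

/- `logHeight_linearMap_apply_le` for the matrix of the coefficients and the vector of the
monomials of degree `d`; `Final.logHeight_algebraMap`; `totalWeight K = r * totalWeight k`. -/
theorem ht_eval {G : Fin M → MvPolynomial (Fin N) k} (hG : ∀ t, (G t).IsHomogeneous d) (r : ℕ) :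
    ∃ C : ℝ, ∀ (K : Type) [Field K] [NumberField K] [Algebra k K], finrank k K = r →
      ∀ x : Fin N → K, logHeight (fun t => aeval x (G t)) ≤ d * logHeight x + C := by
  classical
  obtain ⟨S, hS⟩ : ∃ S : Finset (Fin N →₀ ℕ), S = Finset.univ.biUnion fun t => (G t).support :=
    ⟨_, rfl⟩
  have h1 : ∀ s : S, ∑ i, s.1 i = d := fun s => by
    obtain ⟨t, -, ht⟩ := Finset.mem_biUnion.1 (hS.le s.2)
    simpa [Finsupp.weight_apply, Finsupp.sum_fintype] using hG t (mem_support_iff.1 ht)
  choose I hI using fun s : S => htb_ex (h1 s)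
  refine ⟨(r * finrank ℚ k : ℕ) * Real.log (Nat.card S) +
    r * logHeight fun p : Fin M × S => coeff p.2.1 (G p.1), fun K _ _ _ hK x => ?_⟩
  have h2 := logHeight_linearMap_apply_le
    (fun p : Fin M × S => algebraMap k K (coeff p.2.1 (G p.1))) fun s : S => ∏ a, x (I s a)
  have h3 : logHeight (fun s : S => ∏ a, x (I s a)) ≤ d * logHeight x :=
    (logHeight_comp_le I fun J : Fin d → Fin N => ∏ a, x (J a)).trans (htb_pow x)
  have h4 : ∀ t, aeval x (G t) = ∑ s : S, algebraMap k K (coeff s.1 (G t)) * ∏ a, x (I s a) :=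
    fun t => by
      simp only [← hI]
      rw [aeval_def, eval₂_eq',
        Finset.sum_coe_sort S fun s => algebraMap k K (coeff s (G t)) * ∏ i, x i ^ s i]
      refine Finset.sum_subset (fun s hs => hS.ge (Finset.mem_biUnion.2 ⟨t, Finset.mem_univ t, hs⟩))
        fun s _ hs => ?_
      rw [notMem_support_iff.1 hs, map_zero, zero_mul]
  rw [Pool.Agent.MP_651af7_nt.Final.logHeight_algebraMap, totalWeight_eq_finrank,
    ← Module.finrank_mul_finrank ℚ k K, hK, mul_comm _ r] at h2
  simp only [h4]
  linarith

end Pool.Agent.Lib.MP_651af7_nt.Dg
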