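import Pool.Agent.Lib.MP_651af7_nt.Ds.Ht

/-! Sums over the places above a finite set of places. -/

namespace Pool.Agent.Lib.MP_651af7_nt.Dg

open NumberField Module

variable {k : Type} [Field k] [NumberField k] (S : Finset (FinitePlace k))
  (K : Type) [Field K] [NumberField K] [Algebra k K]

/-- The sum over the infinite places and the places above `S`. -/
noncomputable def msum (f : AbsoluteValue K ℝ → ℝ) : ℝ :=
  ∑ w : InfinitePlace K, w.mult * f w.1 + ∑ᶠ W ∈ {W : FinitePlace K |
    ∃ v ∈ S, W.maximalIdeal.asIdeal.LiesOver v.maximalIdeal.asIdeal}, f W.1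

theorem above_fin : {W : FinitePlace K |
    ∃ v ∈ S, W.maximalIdeal.asIdeal.LiesOver v.maximalIdeal.asIdeal}.Finite := by
  have h : ∀ v : FinitePlace k, {W : FinitePlace K |
      W.maximalIdeal.asIdeal.LiesOver v.maximalIdeal.asIdeal}.Finite := fun v => by
    have hp := v.maximalIdeal.isMaximal
    refine Set.Finite.of_injOn (f := fun W : FinitePlace K => W.maximalIdeal.asIdeal)
      (t := v.maximalIdeal.asIdeal.primesOver (𝓞 K)) (fun W hW => ⟨W.maximalIdeal.isPrime, hW⟩)
      (fun W _ W' _ e => FinitePlace.maximalIdeal_injective ?_) (Set.toFinite _)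
    exact IsDedekindDomain.HeightOneSpectrum.ext e
  refine (S.finite_toSet.biUnion fun v _ => h v).subset ?_
  rintro W ⟨v, hv, hW⟩
  exact Set.mem_biUnion hv hW

theorem msum_sum {α : Type} (s : Finset α) (f : α → AbsoluteValue K ℝ → ℝ) :
    msum S K (fun w => ∑ a ∈ s, f a w) = ∑ a ∈ s, msum S K (f a) := by
  simp only [msum, finsum_mem_eq_finite_toFinset_sum _ (above_fin S K), Finset.sum_add_distrib,
    Finset.mul_sum]
  rw [Finset.sum_comm, Finset.sum_comm (t := s)]

theorem msum_mul (c : ℝ) (f : AbsoluteValue K ℝ → ℝ) :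
    msum S K (fun w => c * f w) = c * msum S K f := by
  simp only [msum, finsum_mem_eq_finite_toFinset_sum _ (above_fin S K), mul_add, Finset.mul_sum,
    mul_left_comm c]

theorem msum_base (f : AbsoluteValue k ℝ → ℝ) :
    msum S k f = ∑ w : InfinitePlace k, w.mult * f w.1 + ∑ v ∈ S, f v.1 := by
  rw [msum, ← finsum_mem_coe_finset _ S]
  refine congrArg _ (congrArg (fun T : Set (FinitePlace k) => ∑ᶠ W ∈ T, f W.1) ?_)
  ext W
  constructor
  · rintro ⟨v, hv, h⟩
    have e : v = W := FinitePlace.maximalIdeal_injective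
      (IsDedekindDomain.HeightOneSpectrum.ext (h.over.trans (Ideal.ext fun _ => Iff.rfl)))
    exact e ▸ hv
  · exact fun h => ⟨W, h, ⟨Ideal.ext fun _ => Iff.rfl⟩⟩

theorem towb_inf {K L : Type} [Field K] [NumberField K] [Field L] [NumberField L] [Algebra K L]
    (f : InfinitePlace K → ℝ) :
    ∑ W : InfinitePlace L, W.mult * f (W.comap (algebraMap K L)) =
      finrank K L * ∑ w : InfinitePlace K, w.mult * f w := by
  have h1 := Pool.Agent.MP_651af7_nt.Final.prod_emb fun W : InfinitePlace L =>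
    Real.exp (f (W.comap (algebraMap K L)))
  have h2 := Pool.Agent.MP_651af7_nt.Final.prod_emb fun w : InfinitePlace K => Real.exp (f w)
  have h3 := Pool.Agent.MP_651af7_nt.Final.prod_emb_comp (L := L) fun σ : K →+* ℂ =>
    Real.exp (f (InfinitePlace.mk σ))
  simp only [InfinitePlace.comap_mk] at h1
  rw [h3, h2] at h1
  simp only [← Real.exp_nat_mul, ← Real.exp_sum] at h1
  exact (Real.exp_injective h1).symm

theorem towb_above {K : Type} (L : Type) [Field K] [NumberField K] [Field L] [NumberField L]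
    [Algebra K L] (v : FinitePlace K) : ∃ T : Finset (FinitePlace L),
    (∀ W, W ∈ T ↔ W.maximalIdeal.asIdeal.LiesOver v.maximalIdeal.asIdeal) ∧
      ∑ W ∈ T, W.maximalIdeal.asIdeal.ramificationIdx (𝓞 K) *
        W.maximalIdeal.asIdeal.inertiaDeg (𝓞 K) = finrank K L := by
  classical
  have hp := v.maximalIdeal.isPrime
  let F : v.maximalIdeal.asIdeal.primesOver (𝓞 L) → FinitePlace L := fun q =>
    FinitePlace.mk ⟨q.1, q.2.1, Ideal.ne_bot_of_mem_primesOver v.maximalIdeal.ne_bot q.2⟩
  have hF : ∀ q, (F q).maximalIdeal.asIdeal = q.1 := fun q => by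
    rw [FinitePlace.maximalIdeal_mk]
  refine ⟨Finset.univ.image F, fun W => ⟨fun hw => ?_, fun hw => ?_⟩, ?_⟩
  · obtain ⟨q, -, rfl⟩ := Finset.mem_image.1 hw
    rw [hF]
    exact q.2.2
  · exact Finset.mem_image.2 ⟨⟨_, W.maximalIdeal.isPrime, hw⟩, Finset.mem_univ _,
      W.mk_maximalIdeal⟩
  · rw [Finset.sum_image fun q _ q' _ h => Subtype.ext (by rw [← hF, ← hF, h])]
    simp only [hF]
    rw [Ideal.sum_ramification_inertia_eq_finrank, IsFractionRing.finrank_eq (𝓞 K) K (𝓞 L) L]

theorem towb_le {K} [Field K] [NumberField K] [Algebra k K] {L : Type} [Field L] [NumberField L]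
    [Algebra k L] [Algebra K L] [IsScalarTower k K L] {f : AbsoluteValue K ℝ → ℝ}
    {g : AbsoluteValue L ℝ → ℝ}
    (h : ∀ (w : AbsoluteValue K ℝ) (V : AbsoluteValue L ℝ) (m : ℕ), m ≠ 0 →
      (∀ a, V (algebraMap K L a) = w a ^ m) → g V ≤ m * f w) :
    msum S L g ≤ finrank K L * msum S K f := by
  classical
  choose T h1 h2 using fun v : FinitePlace K => towb_above L v
  have e : (above_fin S L).toFinset = (above_fin S K).toFinset.biUnion T := by
    ext W
    simp only [Set.Finite.mem_toFinset, Set.mem_ofPred_eq, Finset.mem_biUnion, h1]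
    refine ⟨fun ⟨v, hv, hW⟩ => ?_, fun ⟨w, ⟨v, hv, hw⟩, hW⟩ =>
      ⟨v, hv, Ideal.LiesOver.trans _ w.maximalIdeal.asIdeal _⟩⟩
    have hw : W.maximalIdeal.asIdeal.LiesOver
        (FinitePlace.mk (W.maximalIdeal.under (𝓞 K))).maximalIdeal.asIdeal := by
      rw [FinitePlace.maximalIdeal_mk]
      exact ⟨rfl⟩
    exact ⟨_, ⟨v, hv, Ideal.LiesOver.tower_bot W.maximalIdeal.asIdeal _ _⟩, hw⟩
  rw [msum, msum, finsum_mem_eq_finite_toFinset_sum _ (above_fin S L),
    finsum_mem_eq_finite_toFinset_sum _ (above_fin S K), mul_add, ← towb_inf (fun w => f w.1), e,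
    Finset.sum_biUnion, Finset.mul_sum]
  · refine add_le_add (Finset.sum_le_sum fun W _ => ?_) (Finset.sum_le_sum fun w _ => ?_)
    · have := h (W.comap (algebraMap K L)).1 W.1 1 one_ne_zero fun a => by rw [pow_one]; rfl
      rw [Nat.cast_one, one_mul] at this
      exact mul_le_mul_of_nonneg_left this (Nat.cast_nonneg _)
    · rw [← h2 w, Nat.cast_sum, Finset.sum_mul]
      refine Finset.sum_le_sum fun W hW => ?_
      have := (h1 w W).1 hW
      have hq := W.maximalIdeal.isPrime
      exact h w.1 W.1 _ (mul_pos (Ideal.ramificationIdx_pos _ _) (Ideal.inertiaDeg_pos _ _)).ne'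
        (Ds.ht1_val w W)
  · intro v _ v' _ hne
    refine Finset.disjoint_left.2 fun W hw hw' => hne (FinitePlace.maximalIdeal_injective ?_)
    exact IsDedekindDomain.HeightOneSpectrum.ext
      (((h1 v W).1 hw).over.trans ((h1 v' W).1 hw').over.symm)

/- Make `L` a `K`-algebra by `σ`; `finrank k K * finrank K L = finrank k L`. Infinite places: as in
`Ds.sum_inf`, `m = 1`. Finite places: each place of `L` above `S` lies over one place of `K` above
`S`; `Ds.ht1_val`, and the sum of the local degrees as in `Ds.exists_above`. -/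
theorem msum_le {K} [Field K] [NumberField K] [Algebra k K] {L : Type} [Field L] [NumberField L]
    [Algebra k L] (σ : K →ₐ[k] L) {f : AbsoluteValue K ℝ → ℝ} {g : AbsoluteValue L ℝ → ℝ}
    (h : ∀ (w : AbsoluteValue K ℝ) (V : AbsoluteValue L ℝ) (m : ℕ), m ≠ 0 →
      (∀ a, V (σ a) = w a ^ m) → g V ≤ m * f w) :
    finrank k K * msum S L g ≤ finrank k L * msum S K f := by
  let := σ.toRingHom.toAlgebra
  have := IsScalarTower.of_algHom σ
  rw [← finrank_mul_finrank k K L, Nat.cast_mul, mul_assoc]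
  exact mul_le_mul_of_nonneg_left (towb_le S h) (Nat.cast_nonneg _)

end Pool.Agent.Lib.MP_651af7_nt.Dg
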