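import Pool.Agent.Lib.MP_651af7_nt.Dg.Loc
import Pool.Agent.Lib.MP_651af7_nt.Dg.Ht
import Pool.Agent.Lib.MP_651af7_nt.Dg.Tow

/-! From a point over an extension to the vector of the norms. -/

namespace Pool.Agent.Lib.MP_651af7_nt.Dg

open MvPolynomial NumberField Module

variable {k : Type} [Field k] [NumberField k] {N M n d r : ℕ} {I : Ideal (MvPolynomial (Fin N) k)}
  {G : Fin M → MvPolynomial (Fin N) k}

theorem down_sup {K L : Type} [Field K] [Field L] {w : AbsoluteValue K ℝ} {V : AbsoluteValue L ℝ}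
    {m : ℕ} {x : Fin N → K} (hx : x ≠ 0) {y : Fin N → L} (h : ∀ a, V (y a) = w (x a) ^ m) :
    ⨆ a, V (y a) = (⨆ a, w (x a)) ^ m := by
  obtain ⟨a0, -⟩ := Function.ne_iff.1 hx
  have : Nonempty (Fin N) := ⟨a0⟩
  obtain ⟨b, hb⟩ := exists_eq_ciSup_of_finite (f := fun a => w (x a))
  refine le_antisymm (ciSup_le fun a => ?_) ?_
  · rw [h]
    exact pow_le_pow_left₀ (w.nonneg _) (Finite.le_ciSup (fun a => w (x a)) a) m
  · rw [← hb, ← h]
    exact Finite.le_ciSup (fun a => V (y a)) b

omit [NumberField k] in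
theorem down_map {K L : Type} [Field K] [Field L] [Algebra k K] [Algebra k L] (σ : K →ₐ[k] L)
    (x : Fin N → K) (P : MvPolynomial (Fin N) k) :
    aeval (fun a => σ (x a)) P = σ (aeval x P) :=
  (DFunLike.congr_fun (comp_aeval x σ) P).symm

omit [NumberField k] in
theorem down_lam {K L : Type} [Field K] [Field L] [Algebra k K] [Algebra k L] (σ : K →ₐ[k] L)
    {w : AbsoluteValue K ℝ} {V : AbsoluteValue L ℝ} {m : ℕ} (h : ∀ a, V (σ a) = w a ^ m)
    {x : Fin N → K} (hx : x ≠ 0) (P : MvPolynomial (Fin N) k) (d : ℕ) :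
    Real.log ((⨆ a, V (σ (x a))) ^ d / V (aeval (fun a => σ (x a)) P)) =
      m * Real.log ((⨆ a, w (x a)) ^ d / w (aeval x P)) := by
  rw [down_sup hx fun a => h (x a), down_map, h, ← Real.log_pow, div_pow, ← pow_mul,
    ← pow_mul, mul_comm m d]

/- `conj`; `msum_le` for each `σ i` and the negatives of the local heights (`msum_mul` with `-1`);
sum over `i` (`msum_sum`); `msum_le` for `Algebra.ofId k L` and `loc`; `msum_base`. -/
theorem down (hI : Hom I) (hG : ∀ t, (G t).IsHomogeneous d) (h : WP I n G) (hM : r * n + 1 ≤ M)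
    (S : Finset (FinitePlace k)) : ∃ C : ℝ, ∀ (K : Type) [Field K] [NumberField K] [Algebra k K],
      finrank k K = r → ∀ x : Fin N → K, x ≠ 0 → (∀ P ∈ I, aeval x P = 0) → ∀ c : Fin M → k,
      (∀ t, c t = Algebra.norm k (aeval x (G t))) → ∀ j, c j ≠ 0 →
        msum S K (fun w => Real.log ((⨆ a, w (x a)) ^ d / w (aeval x (G j)))) ≤
          ∑ w : InfinitePlace k, w.mult * Real.log ((⨆ t, w.1 (c t)) / w.1 (c j)) +
            ∑ v ∈ S, Real.log ((⨆ t, v.1 (c t)) / v.1 (c j)) + C := by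
  choose Cf hCf using fun w : AbsoluteValue k ℝ => loc hI hG h hM w
  refine ⟨∑ w : InfinitePlace k, w.mult * Cf w.1 + ∑ v ∈ S, Cf v.1, ?_⟩
  intro K _ _ _ hK x hx hxI c hc j hj
  obtain ⟨L, _, _, _, σ, hσ⟩ := conj K hK
  have hr : (0 : ℝ) < r := by
    rw [← hK]
    exact_mod_cast finrank_pos
  have hL : (0 : ℝ) < finrank k L := by exact_mod_cast finrank_pos
  have h1 : ∀ i, (finrank k L : ℝ) *
      msum S K (fun w => Real.log ((⨆ a, w (x a)) ^ d / w (aeval x (G j)))) ≤ r * msum S L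
        fun V => Real.log ((⨆ a, V (σ i (x a))) ^ d / V (aeval (fun a => σ i (x a)) (G j))) := by
    intro i
    have h2 := msum_le S (σ i)
      (f := fun w => -1 * Real.log ((⨆ a, w (x a)) ^ d / w (aeval x (G j))))
      (g := fun V => -1 *
        Real.log ((⨆ a, V (σ i (x a))) ^ d / V (aeval (fun a => σ i (x a)) (G j))))
      fun w V m _ hV => by
        rw [down_lam (σ i) hV hx]
        exact le_of_eq (by ring)
    rw [msum_mul, msum_mul, hK] at h2
    linarith
  have h3 := Finset.sum_le_sum fun i (_ : i ∈ Finset.univ) => h1 i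
  rw [Finset.sum_const, Finset.card_univ, Fintype.card_fin, nsmul_eq_mul, ← Finset.mul_sum,
    ← msum_sum] at h3
  have h4 := le_of_mul_le_mul_left h3 hr
  have h5 := msum_le S (Algebra.ofId k L)
    (f := fun w => Real.log ((⨆ t, w (c t)) / w (c j)) + Cf w)
    (g := fun V => ∑ i,
      Real.log ((⨆ a, V (σ i (x a))) ^ d / V (aeval (fun a => σ i (x a)) (G j))))
    fun w V m hm hV => hCf w L V m hm hV (fun i a => σ i (x a)) c
      (fun i hi => hx (funext fun a => (map_eq_zero (σ i)).1 (congrFun hi a)))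
      (fun i P hP => by rw [down_map, hxI P hP, map_zero])
      (fun t => by
        rw [hc, hσ]
        exact Finset.prod_congr rfl fun i _ => (down_map (σ i) x (G t)).symm) j hj
  rw [finrank_self, Nat.cast_one, one_mul, msum_base] at h5
  have h6 := le_of_mul_le_mul_left (h4.trans h5) hL
  simp only [mul_add, Finset.sum_add_distrib] at h6
  linarith

end Pool.Agent.Lib.MP_651af7_nt.Dg
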