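import Pool.Agent.Lib.MP_651af7_nt.Dg.Defs

/-! Enlarging a family of forms in general position. -/

namespace Pool.Agent.Lib.MP_651af7_nt.Dg

open MvPolynomial

variable {k : Type} [Field k] {N n d : ℕ} {ι : Type} {I : Ideal (MvPolynomial (Fin N) k)}

theorem ext_mono {R : Type} [CommRing R] {A B : Ideal R}
    (h : ∀ p : Ideal R, p.IsPrime → A ≤ p → B ≤ p) :
    ringKrullDim (R ⧸ A) ≤ ringKrullDim (R ⧸ B) := by
  rw [ringKrullDim_quotient, ringKrullDim_quotient]
  exact Order.krullDim_le_of_strictMono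
    (fun q : PrimeSpectrum.zeroLocus (R := R) ↑A =>
      (⟨q.1, h _ q.1.2 q.2⟩ : PrimeSpectrum.zeroLocus (R := R) ↑B)) fun _ _ => id

/- `ringKrullDim_quotient`; a prime that contains `F j ^ ρ j` contains `F j`. -/
theorem gp_pow {F : ι → MvPolynomial (Fin N) k} (h : GP I n F) (ρ : ι → ℕ) :
    GP I n fun j => F j ^ ρ j := by
  intro J hJ
  refine (ext_mono fun p hp hle => sup_le (le_sup_left.trans hle) (Ideal.span_le.2 ?_)).trans
    (h J hJ)
  rintro _ ⟨j, hj, rfl⟩
  exact hp.mem_of_pow_mem (ρ j) (hle (Ideal.mem_sup_right (Ideal.subset_span ⟨j, hj, rfl⟩)))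

/- `J = {t}`. -/
theorem gp_notMem (hn : ringKrullDim (MvPolynomial (Fin N) k ⧸ I) = (n + 1 : ℕ))
    {G : ι → MvPolynomial (Fin N) k} (h : GP I n G) (t : ι) : G t ∉ I := by
  intro ht
  have h1 := h {t} (by simp)
  have h2 : I ⊔ Ideal.span (G '' ({t} : Finset ι)) ≤ I := sup_le le_rfl (Ideal.span_le.2 (by
    rintro _ ⟨j, hj, rfl⟩
    rwa [Finset.mem_singleton.1 hj]))
  have h3 := (hn.ge.trans (ext_mono fun p _ hp => h2.trans hp)).trans h1
  have h4 : n + 1 ≤ n + 1 - ({t} : Finset ι).card := by exact_mod_cast h3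
  rw [Finset.card_singleton] at h4
  omega

/- A subset of `J` with `n + 1` elements; `Sn.cut` with `r = 0`, `Sn.hom_sup`. -/
theorem gp_wp [Infinite k] (hI : Hom I) {G : ι → MvPolynomial (Fin N) k}
    (hG : ∀ t, (G t).IsHomogeneous d) (h : GP I n G) : WP I n G := by
  intro J hJ a
  obtain ⟨J', hJ', hc⟩ := Finset.exists_subset_card_eq hJ
  have h1 := h J' hc.le
  rw [hc, Nat.sub_self] at h1
  obtain ⟨G', -, h2⟩ := Sn.cut Nat.one_pos 0 _ (Sn.hom_sup hI (by
    rintro _ ⟨j, -, rfl⟩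
    exact ⟨d, hG j⟩)) h1
  refine Ideal.radical_mono ?_ (h2 a)
  rw [Set.range_eq_empty, Ideal.span_empty, sup_bot_eq]
  exact sup_le_sup_left (Ideal.span_mono (Set.image_mono hJ')) _

theorem ext_step [Infinite k] (_hd : 0 < d) {q : ℕ} {F : Fin q → MvPolynomial (Fin N) k}
    (h : GP I n F) : ∃ H : MvPolynomial (Fin N) k, H.IsHomogeneous d ∧
      GP I n (Fin.snoc (α := fun _ => MvPolynomial (Fin N) k) F H) := by
  classical
  have : Finite {p // (∃ J : Finset (Fin q), p ∈ (I ⊔ Ideal.span (F '' J)).minimalPrimes) ∧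
      ∃ i, X i ∉ p} :=
    (Set.finite_iUnion fun J : Finset (Fin q) =>
      (I ⊔ Ideal.span (F '' J)).finite_minimalPrimes_of_isNoetherianRing _).subset
      fun _ hp => Set.mem_iUnion.2 hp.1
  obtain ⟨H, hH⟩ := Submodule.exists_forall_notMem_of_forall_ne_top
    (fun p : {p // (∃ J : Finset (Fin q), p ∈ (I ⊔ Ideal.span (F '' J)).minimalPrimes) ∧
        ∃ i, X i ∉ p} =>
      (p.1.restrictScalars k).comap (homogeneousSubmodule (Fin N) k d).subtype) fun p hp => by
    obtain ⟨i, hi⟩ := p.2.2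
    obtain ⟨J, hJ⟩ := p.2.1
    have h1 : (X i ^ d : MvPolynomial (Fin N) k).IsHomogeneous d := isHomogeneous_X_pow i d
    exact hi (hJ.1.1.mem_of_pow_mem d (Submodule.eq_top_iff'.mp hp ⟨_, h1⟩))
  refine ⟨H.1, H.2, fun J hJ => ?_⟩
  set J' := Finset.univ.filter fun i : Fin q => i.castSucc ∈ J with hJ'
  have hc : J'.card = (J.erase (Fin.last q)).card := by
    rw [← Finset.card_map Fin.castSuccEmb]
    congr 1
    ext i
    induction i using Fin.lastCases with
    | last => simp [Fin.castSucc_ne_last]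
    | cast i => simp [hJ', Fin.castSucc_ne_last]
  have hle : I ⊔ Ideal.span (F '' J') ≤ I ⊔ Ideal.span
      (Fin.snoc (α := fun _ => MvPolynomial (Fin N) k) F H.1 '' J) :=
    sup_le_sup_left (Ideal.span_mono (by
      rintro _ ⟨j, hj, rfl⟩
      exact ⟨j.castSucc, (Finset.mem_filter.1 hj).2, Fin.snoc_castSucc ..⟩)) _
  by_cases hl : Fin.last q ∈ J
  · rw [Finset.card_erase_of_mem hl] at hc
    have hp := Finset.card_pos.2 ⟨_, hl⟩
    have h1 := h J' (by omega)
    rw [show n + 1 - J'.card = n + 1 - J.card + 1 by omega] at h1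
    refine (ext_mono fun p _ hp => le_trans (sup_le hle ?_) hp).trans
      (Sn.cutB_drop (G := H.1) (fun p hp hX => hH ⟨p, ⟨J', hp⟩, hX⟩) h1)
    exact (Ideal.span_singleton_le_iff_mem _).2
      (Ideal.mem_sup_right (Ideal.subset_span ⟨_, hl, Fin.snoc_last ..⟩))
  · rw [Finset.erase_eq_of_notMem hl] at hc
    have h1 := h J' (by omega)
    rw [hc] at h1
    exact (ext_mono fun p _ hp => hle.trans hp).trans h1

/- Induction on `L`. One step: as in the proof of `Sn.cut`, a form `H` of degree `d` outside all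
minimal primes `p` of all `I ⊔ span (F '' J)` with some `X i ∉ p`; `Fin.snoc`; `Sn.cutB_drop`. -/
theorem extend [Infinite k] (hd : 0 < d) {q : ℕ} {F : Fin q → MvPolynomial (Fin N) k}
    (hF : ∀ j, (F j).IsHomogeneous d) (h : GP I n F) (L : ℕ) :
    ∃ G : Fin (q + L) → MvPolynomial (Fin N) k, (∀ t, (G t).IsHomogeneous d) ∧
      (∀ j, G (Fin.castAdd L j) = F j) ∧ GP I n G := by
  induction L with
  | zero => exact ⟨F, hF, fun _ => rfl, h⟩
  | succ L ih =>
    obtain ⟨G, h1, h2, h3⟩ := ih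
    obtain ⟨H, h4, h5⟩ := ext_step hd h3
    refine ⟨Fin.snoc (α := fun _ => MvPolynomial (Fin N) k) G H, fun t => ?_,
      fun j => (Fin.snoc_castSucc (α := fun _ => MvPolynomial (Fin N) k) H G
        (Fin.castAdd L j)).trans (h2 j), h5⟩
    induction t using Fin.lastCases with
    | last =>
      rw [Fin.snoc_last]
      exact h4
    | cast t =>
      rw [Fin.snoc_castSucc]
      exact h1 t

end Pool.Agent.Lib.MP_651af7_nt.Dg
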