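import Pool.Agent.Lib.MP_651af7_nt.Dg.Val

/-! The pigeonhole principle at a place, with constants that do not depend on the extension. -/

namespace Pool.Agent.Lib.MP_651af7_nt.Dg

open MvPolynomial

variable {k : Type} [Field k] {N M n d r : ℕ} {I : Ideal (MvPolynomial (Fin N) k)}
  {G : Fin M → MvPolynomial (Fin N) k}

theorem loc_sum_pow {α : Type} (s : Finset α) (f : α → ℝ) (hf : ∀ a, 0 ≤ f a) {m : ℕ}
    (hm : m ≠ 0) : ∑ a ∈ s, f a ^ m ≤ (∑ a ∈ s, f a) ^ m := by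
  classical
  induction s using Finset.induction_on with
  | empty => simp [hm]
  | insert a s ha ih =>
    rw [Finset.sum_insert ha, Finset.sum_insert ha]
    exact (add_le_add le_rfl ih).trans
      (pow_add_pow_le (hf a) (Finset.sum_nonneg fun b _ => hf b) hm)

theorem loc_le_sup {α : Type} [Finite α] (f : α → ℝ) (a : α) : f a ≤ ⨆ b, f b :=
  le_ciSup (Set.finite_range f).bddAbove a

theorem loc_sup_pos {L : Type} [Field L] (V : AbsoluteValue L ℝ) {y : Fin N → L} (hy : y ≠ 0) :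
    0 < ⨆ a, V (y a) := by
  obtain ⟨a, ha⟩ := Function.ne_iff.1 hy
  exact (V.pos ha).trans_le (loc_le_sup (fun a => V (y a)) a)

/- `B = 1 + ∑ s ∈ P.support, (1 + w (coeff s P))`, say; the triangle inequality and
`∑ a ^ m ≤ (∑ a) ^ m` for `m ≠ 0`. -/
theorem eval_le (w : AbsoluteValue k ℝ) {P : MvPolynomial (Fin N) k} {e : ℕ}
    (hP : P.IsHomogeneous e) : ∃ B : ℝ, 1 ≤ B ∧ ∀ (L : Type) [Field L] [Algebra k L]
      (V : AbsoluteValue L ℝ) (m : ℕ), m ≠ 0 → (∀ a, V (algebraMap k L a) = w a ^ m) →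
      ∀ y : Fin N → L, V (aeval y P) ≤ B ^ m * (⨆ a, V (y a)) ^ e := by
  refine ⟨1 + ∑ s ∈ P.support, w (coeff s P), le_add_of_nonneg_right
    (Finset.sum_nonneg fun s _ => w.nonneg _), fun L _ _ V m hm hV y => ?_⟩
  have h0 : 0 ≤ ⨆ a, V (y a) := Real.iSup_nonneg fun a => V.nonneg _
  have hs : 0 ≤ ∑ s ∈ P.support, w (coeff s P) := Finset.sum_nonneg fun s _ => w.nonneg _
  rw [aeval_def, eval₂_eq']
  refine (V.sum_le _ _).trans ?_
  have key : ∀ s ∈ P.support, V (algebraMap k L (coeff s P) * ∏ a, y a ^ s a) ≤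
      w (coeff s P) ^ m * (⨆ a, V (y a)) ^ e := fun s hs => by
    have he : ∑ a, s a = e := by
      have h1 := hP (mem_support_iff.1 hs)
      rw [← h1, Finsupp.weight_apply, Finsupp.sum_fintype _ _ (by simp)]
      simp
    rw [V.map_mul, hV, map_prod, ← he, ← Finset.prod_pow_eq_pow_sum]
    refine mul_le_mul_of_nonneg_left (Finset.prod_le_prod (fun a _ => V.nonneg _) fun a _ => ?_)
      (pow_nonneg (w.nonneg _) _)
    rw [V.map_pow]
    exact pow_le_pow_left₀ (V.nonneg _) (loc_le_sup (fun a => V (y a)) a) _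
  refine (Finset.sum_le_sum key).trans ?_
  rw [← Finset.sum_mul]
  refine mul_le_mul_of_nonneg_right ((loc_sum_pow _ _ (fun s => w.nonneg _) hm).trans
    (pow_le_pow_left₀ hs (by linarith) _)) (pow_nonneg h0 _)

/- `ident` for the finitely many `J`, `eval_le`, `J.card ≤ (J.card) ^ m`. -/
theorem near (hI : Hom I) (hG : ∀ t, (G t).IsHomogeneous d) (h : WP I n G)
    (w : AbsoluteValue k ℝ) : ∃ B : ℝ, 1 ≤ B ∧ ∀ (L : Type) [Field L] [Algebra k L]
      (V : AbsoluteValue L ℝ) (m : ℕ), m ≠ 0 → (∀ a, V (algebraMap k L a) = w a ^ m) →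
      ∀ y : Fin N → L, y ≠ 0 → (∀ P ∈ I, aeval y P = 0) → ∀ J : Finset (Fin M), n + 1 ≤ J.card →
        ∃ j ∈ J, (⨆ a, V (y a)) ^ d ≤ B ^ m * V (aeval y (G j)) := by
  have one : ∀ J : Finset (Fin M), ∃ B : ℝ, 1 ≤ B ∧ ∀ (L : Type) [Field L] [Algebra k L]
      (V : AbsoluteValue L ℝ) (m : ℕ), m ≠ 0 → (∀ a, V (algebraMap k L a) = w a ^ m) →
      ∀ y : Fin N → L, y ≠ 0 → (∀ P ∈ I, aeval y P = 0) → n + 1 ≤ J.card →
        ∃ j ∈ J, (⨆ a, V (y a)) ^ d ≤ B ^ m * V (aeval y (G j)) := fun J => by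
    by_cases hJ : n + 1 ≤ J.card
    swap
    · exact ⟨1, le_rfl, fun L _ _ V m _ _ y _ _ h => absurd h hJ⟩
    obtain ⟨e, H, hH, hid⟩ := ident hI hG h hJ
    choose b hb1 hb using fun x : Fin N × Fin M => eval_le w (hH x.1 x.2)
    have hb0 : ∀ x, 0 ≤ b x := fun x => zero_le_one.trans (hb1 x)
    have hB0 : 0 ≤ ∑ x, b x := Finset.sum_nonneg fun x _ => hb0 x
    have hc : (1 : ℝ) ≤ J.card := by exact_mod_cast (by omega : 1 ≤ J.card)
    refine ⟨J.card * (1 + ∑ x, b x), one_le_mul_of_one_le_of_one_le hc (by linarith),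
      fun L _ _ V m hm hV y hy hIy _ => ?_⟩
    have hS := loc_sup_pos V hy
    obtain ⟨a0, ha0⟩ := Function.ne_iff.1 hy
    have : Nonempty (Fin N) := ⟨a0⟩
    obtain ⟨a, ha⟩ := exists_eq_ciSup_of_finite (f := fun a => V (y a))
    obtain ⟨j, hj, hmax⟩ := J.exists_max_image (fun j => V (aeval y (G j)))
      (Finset.card_pos.1 (by omega))
    refine ⟨j, hj, ?_⟩
    have h1 := hIy _ (hid a)
    rw [map_sub, map_pow, aeval_X, map_sum, sub_eq_zero] at h1
    have h2 : (⨆ a, V (y a)) ^ (e + d) ≤ ∑ i ∈ J, (1 + ∑ x, b x) ^ m * (⨆ a, V (y a)) ^ e *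
        V (aeval y (G j)) := by
      rw [← ha, ← V.map_pow, h1, ha]
      refine (V.sum_le _ _).trans (Finset.sum_le_sum fun i hi => ?_)
      rw [map_mul, V.map_mul]
      refine mul_le_mul ((hb (a, i) L V m hm hV y).trans ?_) (hmax i hi) (V.nonneg _)
        (by positivity)
      refine mul_le_mul_of_nonneg_right (pow_le_pow_left₀ (hb0 _) ?_ _) (by positivity)
      have := Finset.single_le_sum (f := b) (fun x _ => hb0 x) (Finset.mem_univ (a, i))
      linarith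
    rw [Finset.sum_const, nsmul_eq_mul, pow_add] at h2
    have h3 : (⨆ a, V (y a)) ^ d ≤ J.card * ((1 + ∑ x, b x) ^ m * V (aeval y (G j))) := by
      refine le_of_mul_le_mul_left (h2.trans_eq (by ring)) (pow_pos hS e)
    refine h3.trans ?_
    rw [mul_pow, mul_assoc]
    exact mul_le_mul_of_nonneg_right (le_self_pow₀ hc hm)
      (mul_nonneg (by positivity) (V.nonneg _))
  choose b hb1 hb using one
  have hb0 : ∀ x, 0 ≤ b x := fun x => zero_le_one.trans (hb1 x)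
  have hle : ∀ J, b J ≤ ∑ x, b x := fun J =>
    Finset.single_le_sum (f := b) (fun x _ => hb0 x) (Finset.mem_univ J)
  refine ⟨∑ x, b x, (hb1 ∅).trans (hle ∅), fun L _ _ V m hm hV y hy hIy J hJ => ?_⟩
  obtain ⟨j, hj, h1⟩ := hb J L V m hm hV y hy hIy hJ
  exact ⟨j, hj, h1.trans (mul_le_mul_of_nonneg_right (pow_le_pow_left₀ (hb0 J) (hle J) _)
    (V.nonneg _))⟩

/- `near`, `pigeon` with `J = univ`, `C = r * log B`. -/
theorem loc (hI : Hom I) (hG : ∀ t, (G t).IsHomogeneous d) (h : WP I n G) (hM : r * n + 1 ≤ M)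
    (w : AbsoluteValue k ℝ) : ∃ C : ℝ, ∀ (L : Type) [Field L] [Algebra k L]
      (V : AbsoluteValue L ℝ) (m : ℕ), m ≠ 0 → (∀ a, V (algebraMap k L a) = w a ^ m) →
      ∀ (y : Fin r → Fin N → L) (c : Fin M → k), (∀ i, y i ≠ 0) →
        (∀ i, ∀ P ∈ I, aeval (y i) P = 0) →
        (∀ t, algebraMap k L (c t) = ∏ i, aeval (y i) (G t)) → ∀ j, c j ≠ 0 →
        ∑ i, Real.log ((⨆ a, V (y i a)) ^ d / V (aeval (y i) (G j))) ≤
          m * (Real.log ((⨆ t, w (c t)) / w (c j)) + C) := by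
  obtain ⟨B, hB1, hB⟩ := near hI hG h w
  refine ⟨r * Real.log B, fun L _ _ V m hm hV y c hy hIy hc j hj => ?_⟩
  obtain ⟨j0, -, h0⟩ := pigeon (J := (Finset.univ : Finset (Fin M))) (r := r) (n := n)
    (by simpa using hM) (fun i t => (⨆ a, V (y i a)) ^ d ≤ B ^ m * V (aeval (y i) (G t)))
    fun i J' hJ' => hB L V m hm hV (y i) (hy i) (hIy i) J' hJ'
  have hBp : 0 < B ^ m := pow_pos (by linarith) _
  have hS : ∀ i, 0 < (⨆ a, V (y i a)) ^ d := fun i => pow_pos (loc_sup_pos V (hy i)) _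
  have hp : ∀ t, ∏ i, V (aeval (y i) (G t)) = w (c t) ^ m := fun t => by
    rw [← hV, hc, map_prod]
  have hwj : 0 < w (c j) := w.pos hj
  have hj1 : ∀ i, V (aeval (y i) (G j)) ≠ 0 := fun i =>
    Finset.prod_ne_zero_iff.1 (by rw [hp]; positivity) i (Finset.mem_univ i)
  have hj0 : ∀ i, 0 < V (aeval (y i) (G j0)) := fun i =>
    (mul_pos_iff_of_pos_left hBp).1 ((hS i).trans_le (h0 i))
  have hw0 : 0 < w (c j0) := by
    have h1 : 0 < w (c j0) ^ m := hp j0 ▸ Finset.prod_pos fun i _ => hj0 i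
    exact (w.nonneg _).lt_of_ne' fun e => by simp [e, hm] at h1
  have hsup := loc_le_sup (fun t => w (c t)) j0
  have hl : ∀ t, (∀ i, V (aeval (y i) (G t)) ≠ 0) →
      ∑ i, Real.log (V (aeval (y i) (G t))) = m * Real.log (w (c t)) := fun t ht => by
    rw [← Real.log_prod (fun i _ => ht i), hp, Real.log_pow]
  have key : ∀ i, Real.log ((⨆ a, V (y i a)) ^ d / V (aeval (y i) (G j))) ≤
      m * Real.log B + Real.log (V (aeval (y i) (G j0))) - Real.log (V (aeval (y i) (G j))) :=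
    fun i => by
      rw [Real.log_div (hS i).ne' (hj1 i), ← Real.log_pow B, ← Real.log_mul hBp.ne' (hj0 i).ne']
      exact sub_le_sub_right (Real.log_le_log (hS i) (h0 i)) _
  refine (Finset.sum_le_sum fun i _ => key i).trans ?_
  rw [Finset.sum_sub_distrib, Finset.sum_add_distrib, hl j hj1, hl j0 fun i => (hj0 i).ne',
    Finset.sum_const, Finset.card_univ, Fintype.card_fin, nsmul_eq_mul,
    Real.log_div (hw0.trans_le hsup).ne' hwj.ne']
  have h2 := mul_le_mul_of_nonneg_left (Real.log_le_log hw0 hsup) (Nat.cast_nonneg (α := ℝ) m)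
  linarith

end Pool.Agent.Lib.MP_651af7_nt.Dg
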