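import Pool.Agent.Lib.MP_651af7_nt.Dg.Alg
import Pool.Agent.Lib.MP_651af7_nt.Dg.Ext
import Pool.Agent.Lib.MP_651af7_nt.Dg.Down

/-! Points of bounded degree. -/

namespace Pool.Agent.Lib.MP_651af7_nt.Dg

open MvPolynomial Height NumberField Module

variable {k : Type} [Field k] [NumberField k] {N n d q : ℕ}

/- `extend` with `L = r * n + 1`, `alg` with `κ i a = finProdFinEquiv (i, a)`, `z` the kernel of the
evaluation at the conjugates (`conj`), `down`, `ht_norm`, `ht_eval`. -/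
theorem exact_deg (I : Ideal (MvPolynomial (Fin N) k)) [I.IsPrime]
    (hn : ringKrullDim (MvPolynomial (Fin N) k ⧸ I) = (n + 1 : ℕ)) (hI : Hom I) (hd : 0 < d)
    {r : ℕ} (hr : 0 < r) {F : Fin q → MvPolynomial (Fin N) k} (hF : ∀ j, (F j).IsHomogeneous d)
    (h : GP I n F) {ε : ℝ} (hε : 0 < ε) :
    ∃ (Θ : MvPolynomial (Fin N) k) (e : ℕ), Θ.IsHomogeneous e ∧ Θ ∉ I ∧
      ∀ S : Finset (FinitePlace k), ∃ C : ℝ, ∀ (K : Type) [Field K] [NumberField K] [Algebra k K],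
        finrank k K = r → ∀ x : Fin N → K, x ≠ 0 → (∀ P ∈ I, aeval x P = 0) → aeval x Θ ≠ 0 →
        (∀ j, aeval x (F j) ≠ 0) ∧
        ∑ j, msum S K (fun w => Real.log ((⨆ a, w (x a)) ^ d / w (aeval x (F j)))) ≤
          ((2 * r - 1) * n + 1 + ε) * d * logHeight x + C := by
  obtain ⟨G, hG, hGF, hGP⟩ := extend hd hF h (r * n + 1)
  have hW := gp_wp hI hG hGP
  obtain ⟨Θ, e, hΘ, hΘI, H⟩ := alg I hn hI hd hr hG hW (gp_notMem hn hGP)
    (fun i a => finProdFinEquiv (i, a)) hε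
  refine ⟨Θ, e, hΘ, hΘI, fun S => ?_⟩
  obtain ⟨C1, h1⟩ := H S
  obtain ⟨C2, h2⟩ := down (r := r) hI hG hW (Nat.le_add_left _ _) S
  obtain ⟨C3, h3⟩ := ht_eval hG r
  refine ⟨C1 + q * C2 + ((2 * r - 1) * n + 1 + ε) * C3, fun K _ _ _ hK x hx hxI hxΘ => ?_⟩
  obtain ⟨L, _, _, _, σ, hσ⟩ := conj K hK
  obtain ⟨y, hy⟩ : ∃ y : Fin (r * N) → L, ∀ (i : Fin r) (P : MvPolynomial (Fin N) k),
      aeval y (rename (fun a => finProdFinEquiv (i, a)) P) = σ i (aeval x P : K) :=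
    ⟨fun b => σ (finProdFinEquiv.symm b).1 (x (finProdFinEquiv.symm b).2), fun i P => by
      rw [aeval_rename, ← AlgHom.comp_apply, comp_aeval]
      simp only [Function.comp_def, Equiv.symm_apply_apply]⟩
  obtain ⟨h4, h5⟩ := h1 (RingHom.ker (aeval y : MvPolynomial (Fin (r * N)) k →ₐ[k] L))
    (fun t => Algebra.norm k (aeval x (G t))) (RingHom.ker_isPrime _)
    (fun i P hP => by rw [RingHom.mem_ker, hy, hxI P hP, map_zero])
    (fun t => by
      rw [RingHom.mem_ker, map_sub, map_prod, aeval_C, hσ, sub_eq_zero]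
      exact Finset.prod_congr rfl fun i _ => hy i _)
    (fun i => by rwa [RingHom.mem_ker, hy, map_eq_zero])
  refine ⟨fun j e => h4 j (by rw [hGF, e, Algebra.norm_zero]), ?_⟩
  have h6 := Finset.sum_le_sum (s := Finset.univ) fun j _ =>
    h2 K hK x hx hxI _ (fun _ => rfl) _ (h4 j)
  simp only [hGF] at h5 h6
  rw [Finset.sum_add_distrib, Finset.sum_const, Finset.card_univ, Fintype.card_fin,
    nsmul_eq_mul] at h6
  have h7 : (1 : ℝ) ≤ r := Nat.one_le_cast.2 hr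
  have h8 : (0 : ℝ) ≤ (2 * r - 1) * n + 1 + ε :=
    add_nonneg (add_nonneg (mul_nonneg (by linarith) n.cast_nonneg) zero_le_one) hε.le
  have h9 := mul_le_mul_of_nonneg_left
    ((ht_norm (k := k) fun t => aeval x (G t)).trans (h3 K hK x)) h8
  linarith

/- Induction on `r`: products of the `Θ`; `finrank k K` is positive. -/
theorem le_deg (I : Ideal (MvPolynomial (Fin N) k)) [I.IsPrime]
    (hn : ringKrullDim (MvPolynomial (Fin N) k ⧸ I) = (n + 1 : ℕ)) (hI : Hom I) (hd : 0 < d)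
    (r : ℕ) {F : Fin q → MvPolynomial (Fin N) k} (hF : ∀ j, (F j).IsHomogeneous d)
    (h : GP I n F) {ε : ℝ} (hε : 0 < ε) :
    ∃ (Θ : MvPolynomial (Fin N) k) (e : ℕ), Θ.IsHomogeneous e ∧ Θ ∉ I ∧
      ∀ S : Finset (FinitePlace k), ∃ C : ℝ, ∀ (K : Type) [Field K] [NumberField K] [Algebra k K],
        finrank k K ≤ r → ∀ x : Fin N → K, x ≠ 0 → (∀ P ∈ I, aeval x P = 0) → aeval x Θ ≠ 0 →
        (∀ j, aeval x (F j) ≠ 0) ∧
        ∑ j, msum S K (fun w => Real.log ((⨆ a, w (x a)) ^ d / w (aeval x (F j)))) ≤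
          ((2 * r - 1) * n + 1 + ε) * d * logHeight x + C := by
  induction r with
  | zero =>
    exact ⟨1, 0, isHomogeneous_one _ _, (Ideal.ne_top_iff_one I).1 Ideal.IsPrime.ne_top',
      fun S => ⟨0, fun K _ _ _ hK => absurd hK finrank_pos.not_ge⟩⟩
  | succ r ih =>
    obtain ⟨Θ, e, a1, a2, a3⟩ := ih
    obtain ⟨Θ', e', b1, b2, b3⟩ := exact_deg I hn hI hd r.succ_pos hF h hε
    refine ⟨Θ * Θ', e + e', a1.mul b1, fun m => (Ideal.IsPrime.mem_or_mem ‹_› m).elim a2 b2,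
      fun S => ?_⟩
    obtain ⟨C, a4⟩ := a3 S
    obtain ⟨C', b4⟩ := b3 S
    refine ⟨max C C', fun K _ _ _ hK x hx hxI hxΘ => ?_⟩
    rw [map_mul, mul_ne_zero_iff] at hxΘ
    rcases hK.eq_or_lt with hK | hK
    · exact (b4 K hK x hx hxI hxΘ.2).imp_right fun m => m.trans (by gcongr; exact le_max_right _ _)
    · refine (a4 K (Nat.lt_succ_iff.1 hK) x hx hxI hxΘ.1).imp_right fun m => m.trans ?_
      have h1 := logHeight_nonneg x
      have h2 := mul_nonneg (mul_nonneg (n.cast_nonneg (α := ℝ)) (d.cast_nonneg (α := ℝ))) h1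
      have h3 := le_max_left C C'
      push_cast
      linarith

end Pool.Agent.Lib.MP_651af7_nt.Dg
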