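import Pool.Agent.Lib.MP_651af7_nt.Dg.Val

/-! Two consequences of the valuative criterion of integrality. -/

namespace Pool.Agent.Lib.MP_651af7_nt.Dg

open MvPolynomial

variable {k : Type} [Field k] {N M R n d r : ℕ} {I : Ideal (MvPolynomial (Fin N) k)}
  {G : Fin M → MvPolynomial (Fin N) k}

/-- A valuation ring centred at a prime ideal above the kernel. -/
theorem rada_val {A E : Type} [CommRing A] [Field E] (f : A →+* E) (q : Ideal A) [q.IsPrime]
    (hq : ∀ z, f z = 0 → z ∈ q) : ∃ V : ValuationSubring E, (∀ z, f z ∈ V) ∧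
      ∀ z, V.valuation (f z) = 1 ↔ z ∉ q := by
  have hu : ∀ s : q.primeCompl, IsUnit (f s) := fun s =>
    isUnit_iff_ne_zero.2 fun e => s.2 (hq s e)
  obtain ⟨V, hV, hl⟩ := IsLocalRing.exists_factor_valuationRing
    (IsLocalization.lift (S := Localization.AtPrime q) hu)
  have e : ∀ z, IsLocalization.lift (S := Localization.AtPrime q) hu (algebraMap A _ z) = f z :=
    IsLocalization.lift_eq hu
  refine ⟨V, fun z => e z ▸ hV _, fun z => ?_⟩
  have h1 := V.valuation_eq_one_iff ⟨_, hV (algebraMap A _ z)⟩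
  have h2 := isUnit_map_iff
    ((IsLocalization.lift (S := Localization.AtPrime q) hu).codRestrict V.toSubring hV)
    (algebraMap A _ z)
  rw [← e]
  exact h1.symm.trans
    (h2.trans (IsLocalization.AtPrime.isUnit_to_map_iff (Localization.AtPrime q) q z))

/- Let `q` be a prime above the ideal with `X t ∉ q`. Let `E` be the fraction field of the quotient
by `p`, `y i a` the class of `X (κ i a)`. The map from `MvPolynomial (Fin M) k` to `E` has kernel
`p.comap phi ≤ q`, so it extends to `Localization.AtPrime q`;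
`IsLocalRing.exists_factor_valuationRing` (file `RingTheory/Valuation/LocalSubring`) gives `V` in
which the images of the `X j`, `j ∈ J`, are not units and that of `X t` is a unit; `val` with
`P i = G t`. -/
theorem rad (hI : Hom I) (hd : 0 < d) (hG : ∀ t, (G t).IsHomogeneous d) (h : WP I n G)
    (κ : Fin r → Fin N → Fin R) (p : Ideal (MvPolynomial (Fin R) k)) [p.IsPrime]
    (hp : ∀ i, ∀ P ∈ I, rename (κ i) P ∈ p) {J : Finset (Fin M)} (hJ : r * n + 1 ≤ J.card)
    (t : Fin M) : X t ∈ (p.comap (phi κ G) ⊔ Ideal.span (X '' J)).radical := by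
  rw [Ideal.radical_eq_sInf, Ideal.mem_sInf]
  rintro q ⟨h1, hq⟩
  by_contra ht
  obtain ⟨ψ, hψ⟩ : ∃ ψ : MvPolynomial (Fin R) k →ₐ[k] FractionRing (MvPolynomial (Fin R) k ⧸ p),
      ∀ z, ψ z = 0 ↔ z ∈ p :=
    ⟨(IsScalarTower.toAlgHom k _ _).comp (Ideal.Quotient.mkₐ k p), fun z =>
      (map_eq_zero_iff _ (IsFractionRing.injective (MvPolynomial (Fin R) k ⧸ p) _)).trans
        Ideal.Quotient.eq_zero_iff_mem⟩
  have h2 : ∀ i P, aeval (fun a => ψ (X (κ i a))) P = ψ (rename (κ i) P) := fun i P => by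
    have e : aeval (fun a => ψ (X (κ i a))) = ψ.comp (rename (κ i)) := algHom_ext fun a => by simp
    rw [e]
    rfl
  have h3 : ∀ j, ∏ i, aeval (fun a => ψ (X (κ i a))) (G j) = ψ (phi κ G (X j)) := fun j => by
    rw [phi_X, map_prod]
    exact Finset.prod_congr rfl fun i _ => h2 i _
  obtain ⟨V, v1, v2⟩ := rada_val (ψ.comp (phi κ G)).toRingHom q
    fun z e => h1 (Ideal.mem_sup_left (Ideal.mem_comap.2 ((hψ _).1 e)))
  obtain ⟨j, hj, h4⟩ := val hI hd hG h V
    (fun a => (ψ.comp (phi κ G)).commutes a ▸ v1 (algebraMap k _ a))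
    (fun i a => ψ (X (κ i a))) (fun i P hP => (h2 i P).trans ((hψ _).2 (hp i P hP))) hJ
  have h5 := h4 (fun _ => G t) fun _ => hG t
  rw [h3, h3] at h5
  refine (v2 (X j)).1 (le_antisymm (V.valuation_le_one ⟨_, v1 (X j)⟩)
    (((v2 (X t)).2 ht).ge.trans h5)) ?_
  exact h1 (Ideal.mem_sup_right (Ideal.subset_span ⟨j, hj, rfl⟩))

/- `iInf_valuationSubring_superset` and `val` with `J = univ`. -/
theorem integ (hI : Hom I) (hd : 0 < d) (hG : ∀ t, (G t).IsHomogeneous d) (h : WP I n G)
    (hM : r * n + 1 ≤ M) {E : Type} [Field E] [Algebra k E] (y : Fin r → Fin N → E)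
    (hy : ∀ i, ∀ P ∈ I, aeval (y i) P = 0) (P : Fin r → MvPolynomial (Fin N) k)
    (hP : ∀ i, (P i).IsHomogeneous d) :
    IsIntegral (Algebra.adjoin k (Set.range fun t => ∏ i, aeval (y i) (G t)))
      (∏ i, aeval (y i) (P i)) := by
  generalize hA : Algebra.adjoin k (Set.range fun t => ∏ i, aeval (y i) (G t)) = A
  have h1 : ∏ i, aeval (y i) (P i) ∈
      (integralClosure (Subring.closure (A.toSubring : Set E)) E).toSubring := by
    rw [← iInf_valuationSubring_superset, Subring.mem_iInf]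
    intro V
    obtain ⟨j, -, hj⟩ := val hI hd hG h V.1 (fun a => V.2 (A.algebraMap_mem a)) y hy
      (J := Finset.univ) (by simpa using hM)
    exact (V.1.valuation_le_one_iff _).1 ((hj P hP).trans ((V.1.valuation_le_one_iff _).2
      (V.2 (hA ▸ Algebra.subset_adjoin ⟨j, rfl⟩ : _ ∈ A))))
  rw [Subring.closure_eq] at h1
  exact h1

end Pool.Agent.Lib.MP_651af7_nt.Dg
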