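import Pool.Agent.Lib.MP_651af7_nt.Dg.Defs

/-! The pigeonhole principle at a valuation. -/

namespace Pool.Agent.Lib.MP_651af7_nt.Dg

open MvPolynomial

variable {k : Type} [Field k] {N n d r : ℕ} {ι : Type} {I : Ideal (MvPolynomial (Fin N) k)}
  {G : ι → MvPolynomial (Fin N) k}

/- One exponent `e + d` for all `a`; the component of degree `e + d` (`Av.comp_mul_hom`). -/
theorem ident (hI : Hom I) (hG : ∀ t, (G t).IsHomogeneous d) (h : WP I n G) {J : Finset ι}
    (hJ : n + 1 ≤ J.card) : ∃ (e : ℕ) (H : Fin N → ι → MvPolynomial (Fin N) k),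
      (∀ a j, (H a j).IsHomogeneous e) ∧ ∀ a, X a ^ (e + d) - ∑ j ∈ J, H a j * G j ∈ I := by
  obtain ⟨e, he⟩ := Av.exists_deg_mem (h J hJ)
  have key : ∀ a : Fin N, ∃ H : ι → MvPolynomial (Fin N) k,
      (∀ j, (H j).IsHomogeneous e) ∧ X a ^ (e + d) - ∑ j ∈ J, H j * G j ∈ I := fun a => by
    have h1 := isHomogeneous_X_pow (R := k) a (e + d)
    obtain ⟨f, hf, g, hg, h2⟩ := Submodule.mem_sup.1 (he _ (Nat.le_add_right e d) _ h1)
    obtain ⟨c, rfl⟩ := (Submodule.mem_span_image_finset_iff_exists_fun' _).1 hg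
    refine ⟨fun j => homogeneousComponent e (c j),
      fun j => homogeneousComponent_isHomogeneous _ _, ?_⟩
    have h3 : ∀ j, homogeneousComponent (e + d) (c j • G j) =
        homogeneousComponent e (c j) * G j := fun j => by
      conv_lhs => rw [smul_eq_mul, ← sum_homogeneousComponent (c j), Finset.sum_mul, map_sum]
      rw [Finset.sum_eq_single e]
      · exact homogeneousComponent_eq_self
          ((homogeneousComponent_isHomogeneous e (c j)).mul (hG j))
      · exact fun b _ hb => (homogeneousComponent_of_mem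
          ((homogeneousComponent_isHomogeneous b (c j)).mul (hG j))).trans (if_neg (by omega))
      · intro hb
        rw [homogeneousComponent_eq_zero e (c j) (by simpa using hb), zero_mul, map_zero]
    rw [← homogeneousComponent_eq_self h1, ← h2, map_add, map_sum]
    simp only [h3, add_sub_cancel_right]
    exact hI f hf _
  choose H h1 h2 using key
  exact ⟨e, H, h1, h2⟩

/- For each `i` at most `n` elements `j` of `J` fail `p i j`. -/
theorem pigeon {J : Finset ι} (hJ : r * n + 1 ≤ J.card) (p : Fin r → ι → Prop)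
    (h : ∀ i, ∀ J' : Finset ι, n + 1 ≤ J'.card → ∃ j ∈ J', p i j) : ∃ j ∈ J, ∀ i, p i j := by
  classical
  have h1 : ∀ i, (J.filter fun j => ¬p i j).card ≤ n := fun i => not_lt.1 fun e => by
    obtain ⟨j, hj, h2⟩ := h i _ e
    exact (Finset.mem_filter.1 hj).2 h2
  obtain ⟨j, hj, h2⟩ : ∃ j ∈ J, j ∉ Finset.univ.biUnion fun i => J.filter fun j => ¬p i j := by
    refine Finset.exists_mem_notMem_of_card_lt_card (lt_of_le_of_lt ?_ hJ)
    simpa using Finset.card_biUnion_le_card_mul Finset.univ _ n fun i _ => h1 i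
  exact ⟨j, hj, fun i => by_contra fun e =>
    h2 (Finset.mem_biUnion.2 ⟨i, Finset.mem_univ i, Finset.mem_filter.2 ⟨hj, e⟩⟩)⟩

theorem vl_scale {k L ν : Type} [CommRing k] [CommRing L] (ψ : k →+* L) {f : MvPolynomial ν k}
    {d : ℕ} (hf : f.IsHomogeneous d) (x : ν → L) (s : L) :
    eval₂ ψ (fun a => s * x a) f = s ^ d * eval₂ ψ x f := by
  rw [eval₂_eq, eval₂_eq, Finset.mul_sum]
  refine Finset.sum_congr rfl fun m hm => ?_
  have h1 : ∑ a ∈ m.support, m a = d := by
    have h2 := hf (mem_support_iff.1 hm)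
    rw [← h2, Finsupp.weight_apply, Finsupp.sum]
    simp
  simp only [mul_pow, Finset.prod_mul_distrib, Finset.prod_pow_eq_pow_sum, h1]
  ring

theorem vl_mem {k L ν : Type} [CommRing k] [Field L] (ψ : k →+* L) (V : ValuationSubring L)
    (h : ∀ a, ψ a ∈ V) {x : ν → L} (hx : ∀ a, x a ∈ V) (f : MvPolynomial ν k) :
    eval₂ ψ x f ∈ V := by
  induction f using MvPolynomial.induction_on with
  | C a => simpa using h a
  | add p q hp hq => simpa using add_mem hp hq
  | mul_X p a hp => simpa using mul_mem hp (hx a)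

/-- one point: a scale `s` bounding all forms of degree `d`, attained by all but `n` of the `G j` -/
theorem vl_one {k L ν τ : Type} [CommRing k] [Field L] [Finite ν] {n d : ℕ} (hd : d ≠ 0)
    (ψ : k →+* L) (V : ValuationSubring L) (h : ∀ a, ψ a ∈ V) {I : Ideal (MvPolynomial ν k)}
    (hI : ∀ f ∈ I, ∀ m, homogeneousComponent m f ∈ I) {G : τ → MvPolynomial ν k}
    (hG : ∀ t, (G t).IsHomogeneous d)
    (hg : ∀ J : Finset τ, J.card = n + 1 → ∀ a, ∃ e : ℕ,
      (X a : MvPolynomial ν k) ^ e ∈ I ⊔ Ideal.span (G '' J))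
    {x : ν → L} (hx : ∀ f ∈ I, eval₂ ψ x f = 0) (J : Finset τ) :
    ∃ (s : V.ValueGroup) (E : Finset τ), E.card ≤ n ∧
      (∀ H : MvPolynomial ν k, H.IsHomogeneous d → V.valuation (eval₂ ψ x H) ≤ s) ∧
      ∀ j ∈ J, j ∉ E → V.valuation (eval₂ ψ x (G j)) = s := by
  classical
  by_cases h0 : ∀ a, x a = 0
  · have h1 : ∀ H : MvPolynomial ν k, H.IsHomogeneous d → eval₂ ψ x H = 0 := fun H hH => by
      have h2 := vl_scale ψ hH x 0
      rwa [zero_pow hd, zero_mul, show (fun a => 0 * x a) = x from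
        funext fun a => by rw [h0, mul_zero]] at h2
    exact ⟨0, ∅, Nat.zero_le _, fun H hH => by rw [h1 H hH, map_zero],
      fun j _ _ => by rw [h1 _ (hG j), map_zero]⟩
  obtain ⟨a₁, ha₁⟩ := not_forall.1 h0
  have : Nonempty ν := ⟨a₁⟩
  obtain ⟨b, hb⟩ := Finite.exists_max fun a => V.valuation (x a)
  have hb0 : x b ≠ 0 := fun e => ha₁ (by
    have h1 := hb a₁
    rwa [e, map_zero, le_zero_iff, map_eq_zero] at h1)
  obtain ⟨z, hz⟩ : ∃ z : ν → L, z = fun a => x a / x b := ⟨_, rfl⟩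
  have hzV : ∀ a, z a ∈ V := fun a => by
    rw [← V.valuation_le_one_iff, hz, map_div₀]
    exact div_le_one_of_le₀ (hb a) zero_le
  have hxz : ∀ {H : MvPolynomial ν k} {m : ℕ}, H.IsHomogeneous m →
      eval₂ ψ x H = x b ^ m * eval₂ ψ z H := fun hH => by
    rw [← vl_scale ψ hH, hz]
    congr 1
    exact funext fun a => (mul_div_cancel₀ _ hb0).symm
  have hz1 : ∀ f, V.valuation (eval₂ ψ z f) ≤ 1 := fun f =>
    (V.valuation_le_one_iff _).2 (vl_mem ψ V h hzV f)
  have hzI : ∀ f ∈ I, eval₂ ψ z f = 0 := fun f hf => by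
    rw [← sum_homogeneousComponent f, eval₂_sum]
    refine Finset.sum_eq_zero fun m _ => ?_
    have h1 := hx _ (hI f hf m)
    rw [hxz (homogeneousComponent_isHomogeneous m f)] at h1
    exact (mul_eq_zero.1 h1).resolve_left (pow_ne_zero _ hb0)
  refine ⟨V.valuation (x b) ^ d, J.filter fun j => V.valuation (eval₂ ψ z (G j)) < 1, ?_,
    fun H hH => ?_, fun j hj hE => ?_⟩
  · by_contra h1
    obtain ⟨J₀, h2, h3⟩ := Finset.exists_subset_card_eq (Nat.succ_le_of_lt (not_le.1 h1))
    obtain ⟨e, he⟩ := hg J₀ h3 b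
    obtain ⟨f, hf, g, hg', h4⟩ := Submodule.mem_sup.1 he
    have h5 : V.valuation (eval₂ ψ z g) < 1 := by
      clear h4
      induction hg' using Submodule.span_induction with
      | mem g hg' =>
        obtain ⟨j, hj, rfl⟩ := hg'
        exact (Finset.mem_filter.1 (h2 hj)).2
      | zero => simp
      | add p q _ _ hp hq =>
        rw [eval₂_add]
        exact Valuation.map_add_lt _ hp hq
      | smul c p _ hp =>
        rw [smul_eq_mul, eval₂_mul, map_mul]
        exact (mul_le_of_le_one_left' (hz1 c)).trans_lt hp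
    have h6 := congrArg (eval₂ ψ z) h4
    rw [eval₂_add, hzI f hf, zero_add, eval₂_pow, eval₂_X,
      show z b = 1 from hz ▸ div_self hb0] at h6
    rw [h6, one_pow, map_one] at h5
    exact lt_irrefl _ h5
  · rw [hxz hH, map_mul, map_pow]
    exact mul_le_of_le_one_right' (hz1 H)
  · rw [hxz (hG j), map_mul, map_pow, le_antisymm (hz1 _)
      (not_lt.1 fun h1 => hE (Finset.mem_filter.2 ⟨hj, h1⟩)), mul_one]

theorem val (hI : Hom I) (hd : 0 < d) (hG : ∀ t, (G t).IsHomogeneous d) (h : WP I n G)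
    {E : Type} [Field E] [Algebra k E] (V : ValuationSubring E)
    (hV : ∀ a : k, algebraMap k E a ∈ V) (y : Fin r → Fin N → E)
    (hy : ∀ i, ∀ P ∈ I, aeval (y i) P = 0) {J : Finset ι} (hJ : r * n + 1 ≤ J.card) :
    ∃ j ∈ J, ∀ P : Fin r → MvPolynomial (Fin N) k, (∀ i, (P i).IsHomogeneous d) →
      V.valuation (∏ i, aeval (y i) (P i)) ≤ V.valuation (∏ i, aeval (y i) (G j)) := by
  classical
  choose s T h2 h3 h4 using fun i => vl_one hd.ne' (algebraMap k E) V hV hI hG
    (fun J e a => h J e.ge a) (x := y i) (hy i) J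
  obtain ⟨j, hj, h5⟩ := pigeon hJ (fun i j => j ∉ T i) fun i J' e =>
    Finset.exists_mem_notMem_of_card_lt_card (lt_of_le_of_lt (h2 i) e)
  refine ⟨j, hj, fun P hP => ?_⟩
  rw [map_prod, map_prod]
  exact Finset.prod_le_prod' fun i _ => (h3 i _ (hP i)).trans (h4 i j hj (h5 i)).ge

end Pool.Agent.Lib.MP_651af7_nt.Dg
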